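import Mathlib
import Pool.Agent.H76.VK.JDef

/-!
# Defs: from Vinogradov's mean value theorem to zeta sums, definitions

All phases are in radians: `cexp (θ * I)` with `θ` real.
-/

set_option autoImplicit false

open Complex

namespace Pool.Agent.H48.VB

open Pool.Agent.H76.VK

/-- the polynomial phase `∑ β_j z^(j+1)` -/
noncomputable def ph {k : ℕ} (β : Fin k → ℝ) (z : ℝ) : ℝ := ∑ j, β j * z ^ ((j : ℕ) + 1)

/-- the double sum `∑_{x, y ≤ a} e^(i ph(x y))` -/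
noncomputable def W {k : ℕ} (a : ℕ) (β : Fin k → ℝ) : ℂ :=
  ∑ x ∈ Finset.Icc 1 (a : ℤ), ∑ y ∈ Finset.Icc 1 (a : ℤ), cexp ((ph β ((x : ℝ) * y) : ℝ) * I)

/-- the simple sum `∑_{x ≤ a} e^(i ∑ β_j l_j x^(j+1))` -/
noncomputable def T {k : ℕ} (a : ℕ) (β : Fin k → ℝ) (l : Fin k → ℤ) : ℂ :=
  ∑ x ∈ Finset.Icc 1 (a : ℤ), cexp ((ph (fun j => β j * l j) x : ℝ) * I)

/-- the bilinear sum of one degree `∑_{|m| ≤ Y} |∑_{|l| ≤ Y} e^(i β l m)|` -/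
noncomputable def VS (β : ℝ) (Y : ℕ) : ℝ :=
  ∑ m ∈ Finset.Icc (-(Y : ℤ)) Y, ‖∑ l ∈ Finset.Icc (-(Y : ℤ)) Y, cexp ((β * l * m : ℝ) * I)‖

/-- Taylor coefficients of the phase `-u log (1 + z / n)` -/
noncomputable def bet (k : ℕ) (u : ℝ) (n : ℕ) : Fin k → ℝ :=
  fun j => (-1) ^ ((j : ℕ) + 1) * u / (((j : ℕ) + 1) * (n : ℝ) ^ ((j : ℕ) + 1))

/-- the difference of the power sum vectors of a pair -/
def dv (k : ℕ) {s : ℕ} (q : (Fin s → ℤ) × (Fin s → ℤ)) : Fin k → ℤ := pw k q.1 - pw k q.2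

/-- the box `|l_j| ≤ s a^(j+1)` -/
noncomputable def box (k s a : ℕ) : Finset (Fin k → ℤ) :=
  Fintype.piFinset fun j => Finset.Icc (-((s * a ^ ((j : ℕ) + 1) : ℕ) : ℤ))
    ((s * a ^ ((j : ℕ) + 1) : ℕ) : ℤ)

/-- the form of Vinogradov's mean value theorem which is used -/
def MVB (A : ℝ) : Prop := ∀ k P : ℕ, 2 ≤ k → 1 ≤ P →
  (J k (4 * k ^ 2) P : ℝ) ≤ Real.exp (A * (k : ℝ) ^ 4) *
    (P : ℝ) ^ (8 * (k : ℝ) ^ 2 - (k : ℝ) * (k + 1) / 2 * (1 - (1 - 1 / (k : ℝ)) ^ (4 * k)))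

/-- the saving exponent of the degree `j + 1` -/
noncomputable def gj (lam : ℝ) (j : ℕ) : ℝ :=
  if lam + 1 < (j : ℝ) + 1 ∧ (j : ℝ) + 1 ≤ 4 * lam / 3 then (j : ℝ) + 1 - lam else 0

end Pool.Agent.H48.VB
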