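import Mathlib
import Pool.Agent.H48.VB.Defs

/-!
# Shift (B1)

`f n = (n : ℂ)^(-(u I))` has norm 1 for `n ≥ 1`, and `f (n + h) = f n * cexp (-u log(1 + h/n) I)`
for `n ≥ 1`, `h ≥ 0` (`Complex.cpow_def`, `Complex.natCast_log`, `log (n + h) = log n +
log (1 + h/n)`).  For `h ≥ 0`: `‖∑_{n ∈ Icc A B} f n - ∑_{n ∈ Icc A B} f (n + h)‖ ≤ 2 h` (the two sums
over `Icc A B` and `Icc (A+h) (B+h)`; the sums over `Icc A (B+h)` minus the last resp. first `h`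
terms).  Apply it with `h = x y ≤ a^2`, add up over the `a^2` pairs `(x, y)`, interchange the sums,
`‖∑_n f n * S n‖ ≤ ∑_n ‖S n‖`.  About 90 lines.  (`x y : ℤ` with `1 ≤ x, y`: write `h = (x*y).toNat`.)
-/

set_option autoImplicit false

open Complex

namespace Pool.Agent.H48.VB

private lemma fexp (u : ℝ) {n : ℕ} (hn : 1 ≤ n) :
    (n : ℂ) ^ (-(u * I)) = cexp ((-u * Real.log n : ℝ) * I) := by
  have hn0 : (n : ℂ) ≠ 0 := by
    have : n ≠ 0 := by omega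
    exact_mod_cast this
  rw [Complex.cpow_def_of_ne_zero hn0, ← Complex.natCast_log]
  congr 1
  push_cast
  ring

private lemma fnorm (u : ℝ) {n : ℕ} (hn : 1 ≤ n) : ‖(n : ℂ) ^ (-(u * I))‖ = 1 := by
  rw [fexp u hn, Complex.norm_exp_ofReal_mul_I]

private lemma fshift (u : ℝ) {n : ℕ} (hn : 1 ≤ n) (h : ℕ) :
    ((n + h : ℕ) : ℂ) ^ (-(u * I)) =
      (n : ℂ) ^ (-(u * I)) * cexp ((-u * Real.log (1 + (h : ℝ) / n) : ℝ) * I) := by
  rw [fexp u hn, fexp u (by omega : 1 ≤ n + h), ← Complex.exp_add]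
  congr 1
  have hn0 : (0 : ℝ) < n := by
    have : 0 < n := by omega
    exact_mod_cast this
  have h1 : ((n + h : ℕ) : ℝ) = n * (1 + (h : ℝ) / n) := by
    push_cast
    field_simp
  have h2 : (0 : ℝ) < 1 + (h : ℝ) / n := by positivity
  rw [h1, Real.log_mul hn0.ne' h2.ne']
  push_cast
  ring

private lemma tele (g : ℕ → ℂ) (A B : ℕ) (hAB : A ≤ B) :
    ∑ n ∈ Finset.Icc A B, g n - ∑ n ∈ Finset.Icc A B, g (n + 1) = g A - g (B + 1) := by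
  induction B, hAB using Nat.le_induction with
  | base => simp
  | succ B hB ih =>
    rw [Finset.sum_Icc_succ_top (by omega), Finset.sum_Icc_succ_top (by omega)]
    linear_combination ih

private lemma shiftdiff (u : ℝ) (A B : ℕ) (hA : 1 ≤ A) (hAB : A ≤ B) (h : ℕ) :
    ‖∑ n ∈ Finset.Icc A B, (n : ℂ) ^ (-(u * I)) -
      ∑ n ∈ Finset.Icc A B, ((n + h : ℕ) : ℂ) ^ (-(u * I))‖ ≤ 2 * h := by
  induction h with
  | zero => simp
  | succ h ih =>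
    have h1 := tele (fun n => ((n + h : ℕ) : ℂ) ^ (-(u * I))) A B hAB
    have h2 : ∑ n ∈ Finset.Icc A B, (fun n => ((n + h : ℕ) : ℂ) ^ (-(u * I))) (n + 1) =
        ∑ n ∈ Finset.Icc A B, ((n + (h + 1) : ℕ) : ℂ) ^ (-(u * I)) := by
      refine Finset.sum_congr rfl fun n _ => ?_
      have : n + 1 + h = n + (h + 1) := by ring
      simp only [this]
    rw [h2] at h1
    have h3 : ∑ n ∈ Finset.Icc A B, (n : ℂ) ^ (-(u * I)) -
        ∑ n ∈ Finset.Icc A B, ((n + (h + 1) : ℕ) : ℂ) ^ (-(u * I)) =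
        (∑ n ∈ Finset.Icc A B, (n : ℂ) ^ (-(u * I)) -
          ∑ n ∈ Finset.Icc A B, ((n + h : ℕ) : ℂ) ^ (-(u * I))) +
        (((A + h : ℕ) : ℂ) ^ (-(u * I)) - ((B + 1 + h : ℕ) : ℂ) ^ (-(u * I))) := by
      rw [← h1]
      ring
    rw [h3]
    refine (norm_add_le _ _).trans ?_
    have h4 : ‖((A + h : ℕ) : ℂ) ^ (-(u * I)) - ((B + 1 + h : ℕ) : ℂ) ^ (-(u * I))‖ ≤ 2 := by
      refine (norm_sub_le _ _).trans ?_
      rw [fnorm u (by omega : 1 ≤ A + h), fnorm u (by omega : 1 ≤ B + 1 + h)]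
      norm_num
    have h5 : ((h + 1 : ℕ) : ℝ) = h + 1 := by push_cast; ring
    rw [h5]
    linarith

theorem shift (u : ℝ) (A B a : ℕ) (hA : 1 ≤ A) (hAB : A ≤ B) (ha : 1 ≤ a) :
    (a : ℝ) ^ 2 * ‖∑ n ∈ Finset.Icc A B, (n : ℂ) ^ (-(u * I))‖ ≤
      ∑ n ∈ Finset.Icc A B, ‖∑ x ∈ Finset.Icc 1 (a : ℤ), ∑ y ∈ Finset.Icc 1 (a : ℤ),
        cexp ((-u * Real.log (1 + (x : ℝ) * y / n) : ℝ) * I)‖ + 2 * (a : ℝ) ^ 4 := by
  have _ := ha
  set F : ℂ := ∑ n ∈ Finset.Icc A B, (n : ℂ) ^ (-(u * I)) with hF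
  set Sx : ℕ → ℂ := fun n => ∑ x ∈ Finset.Icc 1 (a : ℤ), ∑ y ∈ Finset.Icc 1 (a : ℤ),
        cexp ((-u * Real.log (1 + (x : ℝ) * y / n) : ℝ) * I) with hSx
  set G : ℤ → ℤ → ℂ := fun x y => ∑ n ∈ Finset.Icc A B,
    ((n + (x * y).toNat : ℕ) : ℂ) ^ (-(u * I)) with hG
  have hcard : ∀ c : ℂ, ∑ x ∈ Finset.Icc 1 (a : ℤ), ∑ y ∈ Finset.Icc 1 (a : ℤ), c =
      (a : ℂ) ^ 2 * c := by
    intro c
    simp only [Finset.sum_const, Int.card_Icc, add_sub_cancel_right, Int.toNat_natCast,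
      nsmul_eq_mul]
    ring
  have hcardr : ∀ c : ℝ, ∑ x ∈ Finset.Icc 1 (a : ℤ), ∑ y ∈ Finset.Icc 1 (a : ℤ), c =
      (a : ℝ) ^ 2 * c := by
    intro c
    simp only [Finset.sum_const, Int.card_Icc, add_sub_cancel_right, Int.toNat_natCast,
      nsmul_eq_mul]
    ring
  have h1 : (a : ℂ) ^ 2 * F = ∑ x ∈ Finset.Icc 1 (a : ℤ), ∑ y ∈ Finset.Icc 1 (a : ℤ), G x y +
      ∑ x ∈ Finset.Icc 1 (a : ℤ), ∑ y ∈ Finset.Icc 1 (a : ℤ), (F - G x y) := by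
    rw [← hcard F, ← Finset.sum_add_distrib]
    refine Finset.sum_congr rfl fun x _ => ?_
    rw [← Finset.sum_add_distrib]
    refine Finset.sum_congr rfl fun y _ => ?_
    ring
  have h2 : ‖∑ x ∈ Finset.Icc 1 (a : ℤ), ∑ y ∈ Finset.Icc 1 (a : ℤ), (F - G x y)‖ ≤
      2 * (a : ℝ) ^ 4 := by
    have h3 : ∀ x ∈ Finset.Icc 1 (a : ℤ), ∀ y ∈ Finset.Icc 1 (a : ℤ),
        ‖F - G x y‖ ≤ 2 * (a : ℝ) ^ 2 := by
      intro x hx y hy
      rw [Finset.mem_Icc] at hx hy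
      refine (shiftdiff u A B hA hAB (x * y).toNat).trans ?_
      have h4 : (((x * y).toNat : ℕ) : ℤ) = x * y := Int.toNat_of_nonneg (by nlinarith)
      have h5 : (((x * y).toNat : ℕ) : ℝ) = ((x * y : ℤ) : ℝ) := by
        have h8 := congrArg (fun z : ℤ => (z : ℝ)) h4
        simpa only [Int.cast_natCast] using h8
      have h6 : (x * y : ℤ) ≤ (a : ℤ) ^ 2 := by nlinarith
      have h7 : ((x * y : ℤ) : ℝ) ≤ (a : ℝ) ^ 2 := by exact_mod_cast h6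
      rw [h5]
      linarith
    refine (norm_sum_le_of_le _ fun x hx => norm_sum_le_of_le _ fun y hy => h3 x hx y hy).trans ?_
    rw [hcardr]
    apply le_of_eq
    ring
  have h3 : ∑ x ∈ Finset.Icc 1 (a : ℤ), ∑ y ∈ Finset.Icc 1 (a : ℤ), G x y =
      ∑ n ∈ Finset.Icc A B, (n : ℂ) ^ (-(u * I)) * Sx n := by
    have h4 : ∀ x ∈ Finset.Icc 1 (a : ℤ), ∑ y ∈ Finset.Icc 1 (a : ℤ), G x y =
        ∑ n ∈ Finset.Icc A B, ∑ y ∈ Finset.Icc 1 (a : ℤ), (n : ℂ) ^ (-(u * I)) *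
          cexp ((-u * Real.log (1 + (x : ℝ) * y / n) : ℝ) * I) := by
      intro x hx
      conv_rhs => rw [Finset.sum_comm]
      refine Finset.sum_congr rfl fun y hy => ?_
      change ∑ n ∈ Finset.Icc A B, ((n + (x * y).toNat : ℕ) : ℂ) ^ (-(u * I)) = _
      refine Finset.sum_congr rfl fun n hn => ?_
      rw [Finset.mem_Icc] at hx hy hn
      rw [fshift u (by omega : 1 ≤ n)]
      have h4 : (((x * y).toNat : ℕ) : ℤ) = x * y := Int.toNat_of_nonneg (by nlinarith)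
      have h5 : (((x * y).toNat : ℕ) : ℝ) = (x : ℝ) * y := by
        have h8 := congrArg (fun z : ℤ => (z : ℝ)) h4
        simpa only [Int.cast_natCast, Int.cast_mul] using h8
      rw [h5]
    rw [Finset.sum_congr rfl h4, Finset.sum_comm]
    refine Finset.sum_congr rfl fun n _ => ?_
    simp only [hSx]
    rw [Finset.mul_sum]
    refine Finset.sum_congr rfl fun x _ => ?_
    rw [Finset.mul_sum]
  have h4 : ‖∑ n ∈ Finset.Icc A B, (n : ℂ) ^ (-(u * I)) * Sx n‖ ≤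
      ∑ n ∈ Finset.Icc A B, ‖Sx n‖ := by
    refine norm_sum_le_of_le _ fun n hn => ?_
    rw [Finset.mem_Icc] at hn
    rw [norm_mul, fnorm u (by omega : 1 ≤ n), one_mul]
  have h5 : (a : ℝ) ^ 2 * ‖F‖ = ‖(a : ℂ) ^ 2 * F‖ := by
    rw [norm_mul, norm_pow, Complex.norm_natCast]
  rw [h5, h1, h3]
  refine (norm_add_le _ _).trans ?_
  linarith

end Pool.Agent.H48.VB
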