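import Mathlib
import Pool.Agent.H48.VB.Defs

/-!
# Taylor (B2)

For `0 ≤ z ≤ 1/2`: `|log (1 + z) - ∑_{j<k} (-1)^j z^(j+1)/(j+1)| ≤ 2 z^(k+1)`
(`Real.abs_log_sub_add_sum_range_le` with `x = -z`).  Here `z = x y / n ≤ a^2/n ≤ 1/2`, and
`ph (bet k u n) (x y) = -u ∑_{j<k} (-1)^j z^(j+1)/(j+1)`.  `|e^(iθ) - e^(iφ)| ≤ |θ - φ|`
(`Complex.norm_exp_I_mul_ofReal_sub_one_le` or `Real.norm_exp_I_mul...`), so every term changes by at
most `2 |u| z^(k+1) ≤ 2 |u| (a^2/n)^(k+1)`; there are `a^2` terms.  About 70 lines.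
-/

set_option autoImplicit false

open Complex

namespace Pool.Agent.H48.VB

private theorem ty_exp (θ φ : ℝ) : ‖cexp ((θ : ℝ) * I) - cexp ((φ : ℝ) * I)‖ ≤ |θ - φ| := by
  have h1 : cexp ((θ : ℝ) * I) - cexp ((φ : ℝ) * I) =
      cexp ((φ : ℝ) * I) * (cexp (I * ((θ - φ : ℝ) : ℂ)) - 1) := by
    rw [mul_sub, ← Complex.exp_add, mul_one]
    congr 2
    push_cast
    ring
  rw [h1, norm_mul, Complex.norm_exp_ofReal_mul_I, one_mul]
  exact Real.norm_exp_I_mul_ofReal_sub_one_le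

private theorem ty_log {z : ℝ} (h0 : 0 ≤ z) (h1 : z ≤ 1 / 2) (k : ℕ) :
    |(∑ i ∈ Finset.range k, (-z) ^ (i + 1) / ((i : ℝ) + 1)) + Real.log (1 + z)| ≤
      2 * z ^ (k + 1) := by
  have h2 := Real.abs_log_sub_add_sum_range_le (x := -z) (by rw [abs_neg, abs_of_nonneg h0]; linarith) k
  rw [abs_neg, abs_of_nonneg h0, sub_neg_eq_add] at h2
  refine h2.trans ?_
  rw [div_le_iff₀ (by linarith)]
  have h3 : 0 ≤ z ^ (k + 1) := by positivity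
  nlinarith

private theorem ty_term (u : ℝ) (k n : ℕ) (hn : 1 ≤ n) {w b : ℝ} (h0 : 0 ≤ w) (hwb : w ≤ b)
    (hb : b / n ≤ 1 / 2) :
    ‖cexp ((-u * Real.log (1 + w / n) : ℝ) * I) - cexp ((ph (bet k u n) w : ℝ) * I)‖ ≤
      2 * |u| * (b / n) ^ (k + 1) := by
  have hn0 : (0 : ℝ) < n := by exact_mod_cast hn
  have hz0 : 0 ≤ w / n := by positivity
  have hzb : w / n ≤ b / n := div_le_div_of_nonneg_right hwb hn0.le
  have hph : ph (bet k u n) w =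
      u * ∑ i ∈ Finset.range k, (-(w / n)) ^ (i + 1) / ((i : ℝ) + 1) := by
    unfold ph bet
    rw [Finset.mul_sum, Finset.sum_range]
    refine Finset.sum_congr rfl fun j _ => ?_
    have h1 : ((j : ℕ) : ℝ) + 1 ≠ 0 := by positivity
    rw [neg_pow (w / n), div_pow]
    field_simp
  refine (ty_exp _ _).trans ?_
  have h1 := ty_log hz0 (hzb.trans hb) k
  have h2 : -u * Real.log (1 + w / n) - ph (bet k u n) w =
      -u * ((∑ i ∈ Finset.range k, (-(w / n)) ^ (i + 1) / ((i : ℝ) + 1)) +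
        Real.log (1 + w / n)) := by
    rw [hph]
    ring
  rw [h2, abs_mul, abs_neg]
  have h3 : (w / n) ^ (k + 1) ≤ (b / n) ^ (k + 1) := pow_le_pow_left₀ hz0 hzb _
  calc |u| * |(∑ i ∈ Finset.range k, (-(w / n)) ^ (i + 1) / ((i : ℝ) + 1)) +
        Real.log (1 + w / n)| ≤ |u| * (2 * (w / n) ^ (k + 1)) :=
        mul_le_mul_of_nonneg_left h1 (abs_nonneg u)
    _ ≤ |u| * (2 * (b / n) ^ (k + 1)) :=
        mul_le_mul_of_nonneg_left (by linarith) (abs_nonneg u)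
    _ = 2 * |u| * (b / n) ^ (k + 1) := by ring

theorem taylor (u : ℝ) (k n a : ℕ) (hn : 1 ≤ n) (h : 2 * a ^ 2 ≤ n) :
    ‖∑ x ∈ Finset.Icc 1 (a : ℤ), ∑ y ∈ Finset.Icc 1 (a : ℤ),
        cexp ((-u * Real.log (1 + (x : ℝ) * y / n) : ℝ) * I)‖ ≤
      ‖W a (bet k u n)‖ + 2 * |u| * (a : ℝ) ^ 2 * ((a : ℝ) ^ 2 / n) ^ (k + 1) := by
  have hn0 : (0 : ℝ) < n := by exact_mod_cast hn
  have hb : (a : ℝ) ^ 2 / n ≤ 1 / 2 := by
    rw [div_le_iff₀ hn0]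
    have h1 : ((2 * a ^ 2 : ℕ) : ℝ) ≤ (n : ℝ) := by exact_mod_cast h
    push_cast at h1
    linarith
  have hterm : ∀ x ∈ Finset.Icc 1 (a : ℤ), ∀ y ∈ Finset.Icc 1 (a : ℤ),
      ‖cexp ((-u * Real.log (1 + (x : ℝ) * y / n) : ℝ) * I) -
        cexp ((ph (bet k u n) ((x : ℝ) * y) : ℝ) * I)‖ ≤
        2 * |u| * ((a : ℝ) ^ 2 / n) ^ (k + 1) := by
    intro x hx y hy
    rw [Finset.mem_Icc] at hx hy
    have hx1 : (1 : ℝ) ≤ x := by exact_mod_cast hx.1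
    have hx2 : (x : ℝ) ≤ a := by exact_mod_cast hx.2
    have hy1 : (1 : ℝ) ≤ y := by exact_mod_cast hy.1
    have hy2 : (y : ℝ) ≤ a := by exact_mod_cast hy.2
    refine ty_term u k n hn (by positivity) ?_ hb
    rw [pow_two]
    exact mul_le_mul hx2 hy2 (by linarith) (by linarith)
  have hcard : (Finset.Icc 1 (a : ℤ)).card = a := by
    rw [Int.card_Icc]
    simp
  have hdiff : ‖(∑ x ∈ Finset.Icc 1 (a : ℤ), ∑ y ∈ Finset.Icc 1 (a : ℤ),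
        cexp ((-u * Real.log (1 + (x : ℝ) * y / n) : ℝ) * I)) - W a (bet k u n)‖ ≤
      2 * |u| * (a : ℝ) ^ 2 * ((a : ℝ) ^ 2 / n) ^ (k + 1) := by
    unfold W
    rw [← Finset.sum_sub_distrib]
    calc ‖∑ x ∈ Finset.Icc 1 (a : ℤ), (∑ y ∈ Finset.Icc 1 (a : ℤ),
          cexp ((-u * Real.log (1 + (x : ℝ) * y / n) : ℝ) * I) -
          ∑ y ∈ Finset.Icc 1 (a : ℤ), cexp ((ph (bet k u n) ((x : ℝ) * y) : ℝ) * I))‖
        ≤ ∑ x ∈ Finset.Icc 1 (a : ℤ), (a : ℝ) * (2 * |u| * ((a : ℝ) ^ 2 / n) ^ (k + 1)) := by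
          refine norm_sum_le_of_le _ fun x hx => ?_
          rw [← Finset.sum_sub_distrib]
          refine (norm_sum_le_of_le _ (hterm x hx)).trans ?_
          rw [Finset.sum_const, hcard, nsmul_eq_mul]
      _ = 2 * |u| * (a : ℝ) ^ 2 * ((a : ℝ) ^ 2 / n) ^ (k + 1) := by
          rw [Finset.sum_const, hcard, nsmul_eq_mul]
          ring
  have h2 := norm_sub_norm_le (∑ x ∈ Finset.Icc 1 (a : ℤ), ∑ y ∈ Finset.Icc 1 (a : ℤ),
        cexp ((-u * Real.log (1 + (x : ℝ) * y / n) : ℝ) * I)) (W a (bet k u n))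
  linarith

end Pool.Agent.H48.VB
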