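import Mathlib
import Pool.Agent.H48.VB.Defs
import Pool.Agent.H76.VK.MxDef

/-!
# Fib: the number of pairs with prescribed difference of power sums is at most `J`
-/

set_option autoImplicit false

namespace Pool.Agent.H48.VB

open Pool.Agent.H76.VK

theorem fib_le (k s a : ℕ) (l : Fin k → ℤ) :
    ((vset s a ×ˢ vset s a).filter fun q => dv k q = l).card ≤ J k s a := by
  refine le_trans (le_of_eq ?_) (count_le_en k (vset s a) l)
  congr 1
  refine Finset.filter_congr fun q _ => ?_
  unfold dv
  exact sub_eq_iff_eq_add'

end Pool.Agent.H48.VB
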