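import Mathlib
import Pool.Agent.H48.VB.Defs
import Pool.Agent.H48.VB.Fib

/-!
# FibSum

`dv_mem`: `|∑_i (x_i^(j+1) - y_i^(j+1))| ≤ s a^(j+1)`: both power sums lie in `[0, s a^(j+1)]`
(`x_i ∈ [1, a]`).
`fib_sum`: split the sum over the value `l = dv k q ∈ box` (`Finset.sum_fiberwise_of_maps_to`), each
fibre contributes `card * F l ≤ J * F l` by `fib_le`.
`card_vset`: `Fintype.card_piFinset_const`, `Int.card_Icc`.  About 60 lines.
-/

set_option autoImplicit false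

namespace Pool.Agent.H48.VB

open Pool.Agent.H76.VK

theorem card_vset (s a : ℕ) : (vset s a).card = a ^ s := by
  unfold vset
  rw [Fintype.card_piFinset_const]
  simp

private theorem pw_bounds (k s a : ℕ) {x : Fin s → ℤ} (hx : x ∈ vset s a) (j : Fin k) :
    0 ≤ pw k x j ∧ pw k x j ≤ ((s * a ^ ((j : ℕ) + 1) : ℕ) : ℤ) := by
  have hx' : ∀ i, 1 ≤ x i ∧ x i ≤ (a : ℤ) := by
    intro i
    unfold vset at hx
    have := (Fintype.mem_piFinset.mp hx) i
    exact Finset.mem_Icc.mp this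
  have e : pw k x j = ∑ i, x i ^ ((j : ℕ) + 1) := rfl
  rw [e]
  constructor
  · exact Finset.sum_nonneg fun i _ => pow_nonneg (by linarith [(hx' i).1]) _
  · have h1 : ∑ i, x i ^ ((j : ℕ) + 1) ≤ ∑ _i : Fin s, (a : ℤ) ^ ((j : ℕ) + 1) :=
      Finset.sum_le_sum fun i _ => pow_le_pow_left₀ (by linarith [(hx' i).1]) (hx' i).2 _
    refine h1.trans (le_of_eq ?_)
    simp

theorem dv_mem (k s a : ℕ) {q : (Fin s → ℤ) × (Fin s → ℤ)} (hq : q ∈ vset s a ×ˢ vset s a) :
    dv k q ∈ box k s a := by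
  obtain ⟨h1, h2⟩ := Finset.mem_product.mp hq
  unfold box
  rw [Fintype.mem_piFinset]
  intro j
  rw [Finset.mem_Icc]
  obtain ⟨a1, a2⟩ := pw_bounds k s a h1 j
  obtain ⟨b1, b2⟩ := pw_bounds k s a h2 j
  have e : dv k q j = pw k q.1 j - pw k q.2 j := rfl
  rw [e]
  constructor <;> linarith

theorem fib_sum (k s a : ℕ) (F : (Fin k → ℤ) → ℝ) (hF : ∀ l, 0 ≤ F l) :
    ∑ q ∈ vset s a ×ˢ vset s a, F (dv k q) ≤ (J k s a : ℝ) * ∑ l ∈ box k s a, F l := by
  rw [← Finset.sum_fiberwise_of_maps_to (t := box k s a) (g := fun q => dv k q)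
    (fun q hq => dv_mem k s a hq), Finset.mul_sum]
  refine Finset.sum_le_sum fun l _ => ?_
  have h1 : ∑ q ∈ (vset s a ×ˢ vset s a).filter (fun q => dv k q = l), F (dv k q) =
      ∑ q ∈ (vset s a ×ˢ vset s a).filter (fun q => dv k q = l), F l := by
    refine Finset.sum_congr rfl fun q hq => ?_
    rw [(Finset.mem_filter.mp hq).2]
  rw [h1, Finset.sum_const, nsmul_eq_mul]
  have h2 : (((vset s a ×ˢ vset s a).filter (fun q => dv k q = l)).card : ℝ) ≤ (J k s a : ℝ) := by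
    exact_mod_cast fib_le k s a l
  exact mul_le_mul_of_nonneg_right h2 (hF l)

end Pool.Agent.H48.VB
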