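import Mathlib
import Pool.Agent.H48.VB.Defs

/-!
# PowS: the `2s`-th power of an exponential sum

`‖S‖^(2s) = S^s * conj(S)^s` (`Complex.mul_conj`, `Complex.normSq_eq_norm_sq`), `S^s = ∏_{i : Fin s} S
= ∑_{y ∈ vset s a} ∏_i cexp(ph γ (y i) I) = ∑_y cexp((∑_j γ_j pw k y j) I)` (`Finset.prod_univ_sum`,
`Finset.prod_const`, `Complex.exp_sum`, `ph` and `pw` unfolded, `Finset.sum_comm`), the conjugate has
`cexp(-...)` (`Complex.exp_conj`), multiply (`Finset.sum_mul_sum`, `Finset.sum_product`,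
`Complex.exp_add`).  About 70 lines.
-/

set_option autoImplicit false

open Complex

namespace Pool.Agent.H48.VB

open Pool.Agent.H76.VK

theorem powS (k s a : ℕ) (γ : Fin k → ℝ) :
    ((‖∑ x ∈ Finset.Icc 1 (a : ℤ), cexp ((ph γ x : ℝ) * I)‖ ^ (2 * s) : ℝ) : ℂ) =
      ∑ q ∈ vset s a ×ˢ vset s a, cexp ((∑ j, γ j * (dv k q j : ℝ) : ℝ) * I) := by
  set S : ℂ := ∑ x ∈ Finset.Icc 1 (a : ℤ), cexp ((ph γ x : ℝ) * I) with hS
  have h1 : ((‖S‖ ^ (2 * s) : ℝ) : ℂ) = S ^ s * (starRingEnd ℂ) (S ^ s) := by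
    rw [map_pow, ← mul_pow, Complex.mul_conj, Complex.normSq_eq_norm_sq]
    push_cast
    rw [← pow_mul]
  have h2 : ∀ y : Fin s → ℤ, ∏ i, cexp ((ph γ (y i) : ℝ) * I) =
      cexp ((∑ j, γ j * (pw k y j : ℝ) : ℝ) * I) := by
    intro y
    rw [← Complex.exp_sum, ← Finset.sum_mul, ← Complex.ofReal_sum]
    have h3 : ∑ i, ph γ (y i) = ∑ j, γ j * (pw k y j : ℝ) := by
      unfold ph pw
      rw [Finset.sum_comm]
      refine Finset.sum_congr rfl fun j _ => ?_
      push_cast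
      rw [Finset.mul_sum]
    rw [h3]
  have h4 : S ^ s = ∑ y ∈ vset s a, cexp ((∑ j, γ j * (pw k y j : ℝ) : ℝ) * I) := by
    have h5 : S ^ s = ∏ _i : Fin s, S := by
      rw [Finset.prod_const, Finset.card_univ, Fintype.card_fin]
    rw [h5, hS, Finset.prod_univ_sum]
    unfold vset
    refine Finset.sum_congr rfl fun y _ => h2 y
  have h6 : (starRingEnd ℂ) (S ^ s) =
      ∑ y ∈ vset s a, cexp (-((∑ j, γ j * (pw k y j : ℝ) : ℝ) * I)) := by
    rw [h4, map_sum]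
    refine Finset.sum_congr rfl fun y _ => ?_
    rw [← Complex.exp_conj, map_mul, Complex.conj_ofReal, Complex.conj_I, mul_neg]
  rw [h1, h6, h4, Finset.sum_mul_sum, Finset.sum_product]
  refine Finset.sum_congr rfl fun y _ => Finset.sum_congr rfl fun z _ => ?_
  rw [← Complex.exp_add]
  congr 1
  unfold dv
  simp only [Pi.sub_apply]
  push_cast
  simp only [mul_sub, Finset.sum_sub_distrib]
  ring

end Pool.Agent.H48.VB
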