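import Mathlib
import Pool.Agent.H48.VB.Defs
import Pool.Agent.H48.VB.PowS
import Pool.Agent.H48.VB.FibSum

/-!
# HoldA: the two applications of Hoelder's inequality

`hold1`: `‖W‖ ≤ ∑_x ‖S x‖`, `S x = ∑_y cexp(ph β (x y) I) = ∑_y cexp(ph (β_j x^(j+1)) y I)`;
`Real.pow_sum_div_card_le_sum_pow` (or `inner_le_nnorm_mul_nnorm`) with exponent `2s = (2s-1)+1`:
`(∑_x ‖S x‖)^(2s) ≤ a^(2s-1) ∑_x ‖S x‖^(2s)`; by `powS` with `γ_j = β_j x^(j+1)` and interchange of sums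
`∑_x ‖S x‖^(2s) = ∑_q ∑_x cexp((∑_j β_j x^(j+1) dv_j(q)) I) = ∑_q T a β (dv k q)`, norm `≤ ∑_q ‖T‖`.
`hold2`: the same power mean inequality over the `a^(2s)` pairs (`card_vset`, `Finset.card_product`).
About 90 lines.
-/

set_option autoImplicit false

open Complex

namespace Pool.Agent.H48.VB

open Pool.Agent.H76.VK

theorem pmean {ι : Type*} (u : Finset ι) (f : ι → ℝ) (hf : ∀ i ∈ u, 0 ≤ f i) (n : ℕ) (hn : 1 ≤ n)
    (hu : 1 ≤ u.card) :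
    (∑ i ∈ u, f i) ^ n * u.card ≤ (u.card : ℝ) ^ n * ∑ i ∈ u, f i ^ n := by
  obtain ⟨m, rfl⟩ : ∃ m, n = m + 1 := ⟨n - 1, by omega⟩
  have h := pow_sum_div_card_le_sum_pow (s := u) (f := f) (n := m) hf
  have hc : (0 : ℝ) < (u.card : ℝ) := by exact_mod_cast hu
  rw [div_le_iff₀ (by positivity)] at h
  calc (∑ i ∈ u, f i) ^ (m + 1) * u.card
      ≤ ((∑ i ∈ u, f i ^ (m + 1)) * (u.card : ℝ) ^ m) * u.card :=
        mul_le_mul_of_nonneg_right h hc.le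
    _ = (u.card : ℝ) ^ (m + 1) * ∑ i ∈ u, f i ^ (m + 1) := by ring

theorem hold1 (k s a : ℕ) (hs : 1 ≤ s) (ha : 1 ≤ a) (β : Fin k → ℝ) :
    ‖W a β‖ ^ (2 * s) * a ≤ (a : ℝ) ^ (2 * s) * ∑ q ∈ vset s a ×ˢ vset s a, ‖T a β (dv k q)‖ := by
  set S : ℤ → ℂ := fun x => ∑ y ∈ Finset.Icc 1 (a : ℤ),
    cexp ((ph (fun j => β j * (x : ℝ) ^ ((j : ℕ) + 1)) (y : ℝ) : ℝ) * I) with hS
  have hW : W a β = ∑ x ∈ Finset.Icc 1 (a : ℤ), S x := by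
    unfold W
    refine Finset.sum_congr rfl fun x _ => Finset.sum_congr rfl fun y _ => ?_
    congr 3
    unfold ph
    refine Finset.sum_congr rfl fun j _ => ?_
    rw [mul_pow]; ring
  have hcard : (Finset.Icc 1 (a : ℤ)).card = a := by simp
  have h1 : ‖W a β‖ ≤ ∑ x ∈ Finset.Icc 1 (a : ℤ), ‖S x‖ := by
    rw [hW]
    exact norm_sum_le _ _
  have h2 := pmean (Finset.Icc 1 (a : ℤ)) (fun x => ‖S x‖) (fun _ _ => norm_nonneg _) (2 * s)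
    (by omega) (by rw [hcard]; exact ha)
  rw [hcard] at h2
  have h3 : ∑ x ∈ Finset.Icc 1 (a : ℤ), ‖S x‖ ^ (2 * s) ≤
      ∑ q ∈ vset s a ×ˢ vset s a, ‖T a β (dv k q)‖ := by
    have h4 : ((∑ x ∈ Finset.Icc 1 (a : ℤ), ‖S x‖ ^ (2 * s) : ℝ) : ℂ) =
        ∑ q ∈ vset s a ×ˢ vset s a, T a β (dv k q) := by
      rw [Complex.ofReal_sum]
      have h5 : ∀ x ∈ Finset.Icc 1 (a : ℤ), ((‖S x‖ ^ (2 * s) : ℝ) : ℂ) =
          ∑ q ∈ vset s a ×ˢ vset s a,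
            cexp ((∑ j, (β j * (x : ℝ) ^ ((j : ℕ) + 1)) * (dv k q j : ℝ) : ℝ) * I) :=
        fun x _ => powS k s a (fun j => β j * (x : ℝ) ^ ((j : ℕ) + 1))
      rw [Finset.sum_congr rfl h5, Finset.sum_comm]
      refine Finset.sum_congr rfl fun q _ => ?_
      unfold T
      refine Finset.sum_congr rfl fun x _ => ?_
      congr 3
      unfold ph
      refine Finset.sum_congr rfl fun j _ => ?_
      ring
    have h6 : ∑ x ∈ Finset.Icc 1 (a : ℤ), ‖S x‖ ^ (2 * s) =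
        ‖((∑ x ∈ Finset.Icc 1 (a : ℤ), ‖S x‖ ^ (2 * s) : ℝ) : ℂ)‖ := by
      rw [Complex.norm_real, Real.norm_eq_abs, abs_of_nonneg]
      exact Finset.sum_nonneg fun x _ => by positivity
    rw [h6, h4]
    exact norm_sum_le _ _
  have h7 : ‖W a β‖ ^ (2 * s) ≤ (∑ x ∈ Finset.Icc 1 (a : ℤ), ‖S x‖) ^ (2 * s) :=
    pow_le_pow_left₀ (norm_nonneg _) h1 _
  calc ‖W a β‖ ^ (2 * s) * a ≤ (∑ x ∈ Finset.Icc 1 (a : ℤ), ‖S x‖) ^ (2 * s) * a :=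
        mul_le_mul_of_nonneg_right h7 (Nat.cast_nonneg _)
    _ ≤ (a : ℝ) ^ (2 * s) * ∑ x ∈ Finset.Icc 1 (a : ℤ), ‖S x‖ ^ (2 * s) := h2
    _ ≤ _ := mul_le_mul_of_nonneg_left h3 (by positivity)

theorem hold2 (k s a : ℕ) (hs : 1 ≤ s) (ha : 1 ≤ a) (β : Fin k → ℝ) :
    (∑ q ∈ vset s a ×ˢ vset s a, ‖T a β (dv k q)‖) ^ (2 * s) * (a : ℝ) ^ (2 * s) ≤
      ((a : ℝ) ^ (2 * s)) ^ (2 * s) * ∑ q ∈ vset s a ×ˢ vset s a, ‖T a β (dv k q)‖ ^ (2 * s) := by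
  have hcard : (vset s a ×ˢ vset s a).card = a ^ (2 * s) := by
    rw [Finset.card_product, card_vset]
    ring
  have h2 := pmean (vset s a ×ˢ vset s a) (fun q => ‖T a β (dv k q)‖) (fun _ _ => norm_nonneg _)
    (2 * s) (by omega) (by rw [hcard]; exact Nat.one_le_pow _ _ (by omega))
  rw [hcard] at h2
  push_cast at h2
  exact h2

end Pool.Agent.H48.VB
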