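import Mathlib
import Pool.Agent.H48.VB.Defs
import Pool.Agent.H48.VB.PowS
import Pool.Agent.H48.VB.FibSum

/-!
# HoldB: the sum over the box

`‖T a β l‖^(2s) = ∑_q cexp((∑_j β_j l_j dv_j(q)) I)` (`powS` with `γ_j = β_j l_j`); sum over `l ∈ box` and
interchange: `∑_q ∏_j ∑_{|l_j| ≤ Y_j} cexp((β_j l_j dv_j(q)) I)` (`Finset.prod_univ_sum` backwards,
`Complex.exp_sum`), `Y_j = s a^(j+1)`; norms, then `fib_sum` with
`F m = ∏_j ‖∑_{l ∈ Icc (-Y_j) Y_j} cexp((β_j l m_j) I)‖` and `Finset.prod_univ_sum` once more: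
`∑_{m ∈ box} F m = ∏_j VS (β_j) Y_j`.  About 70 lines.
-/

set_option autoImplicit false

open Complex

namespace Pool.Agent.H48.VB

open Pool.Agent.H76.VK

theorem hold3 (k s a : ℕ) (β : Fin k → ℝ) :
    ∑ l ∈ box k s a, ‖T a β l‖ ^ (2 * s) ≤
      (J k s a : ℝ) * ∏ j, VS (β j) (s * a ^ ((j : ℕ) + 1)) := by
  have h1 : ((∑ l ∈ box k s a, ‖T a β l‖ ^ (2 * s) : ℝ) : ℂ) =
      ∑ q ∈ vset s a ×ˢ vset s a, ∏ j : Fin k,
        ∑ l ∈ Finset.Icc (-((s * a ^ ((j : ℕ) + 1) : ℕ) : ℤ)) ((s * a ^ ((j : ℕ) + 1) : ℕ) : ℤ),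
          cexp ((β j * l * (dv k q j : ℤ) : ℝ) * I) := by
    rw [Complex.ofReal_sum]
    have h2 : ∀ l ∈ box k s a, ((‖T a β l‖ ^ (2 * s) : ℝ) : ℂ) =
        ∑ q ∈ vset s a ×ˢ vset s a, ∏ j : Fin k, cexp ((β j * l j * (dv k q j : ℤ) : ℝ) * I) := by
      intro l _
      have h3 := powS k s a (fun j => β j * l j)
      unfold T
      rw [h3]
      refine Finset.sum_congr rfl fun q _ => ?_
      rw [← Complex.exp_sum]
      congr 1
      rw [← Finset.sum_mul]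
      congr 1
      push_cast
      rfl
    rw [Finset.sum_congr rfl h2, Finset.sum_comm]
    refine Finset.sum_congr rfl fun q _ => ?_
    unfold box
    exact (Finset.prod_univ_sum (fun j : Fin k =>
      Finset.Icc (-((s * a ^ ((j : ℕ) + 1) : ℕ) : ℤ)) ((s * a ^ ((j : ℕ) + 1) : ℕ) : ℤ))
      (fun (j : Fin k) (l : ℤ) => cexp ((β j * l * (dv k q j : ℤ) : ℝ) * I))).symm
  set F : (Fin k → ℤ) → ℝ := fun m => ∏ j : Fin k,
    ‖∑ l ∈ Finset.Icc (-((s * a ^ ((j : ℕ) + 1) : ℕ) : ℤ)) ((s * a ^ ((j : ℕ) + 1) : ℕ) : ℤ),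
      cexp ((β j * l * m j : ℝ) * I)‖ with hF
  have h4 : ∑ l ∈ box k s a, ‖T a β l‖ ^ (2 * s) ≤
      ∑ q ∈ vset s a ×ˢ vset s a, F (dv k q) := by
    have h5 : ∑ l ∈ box k s a, ‖T a β l‖ ^ (2 * s) =
        ‖((∑ l ∈ box k s a, ‖T a β l‖ ^ (2 * s) : ℝ) : ℂ)‖ := by
      rw [Complex.norm_real, Real.norm_of_nonneg]
      exact Finset.sum_nonneg fun l _ => by positivity
    rw [h5, h1]
    refine (norm_sum_le _ _).trans (le_of_eq ?_)
    refine Finset.sum_congr rfl fun q _ => ?_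
    rw [hF, norm_prod]
  refine h4.trans ?_
  refine (fib_sum k s a F ?_).trans (le_of_eq ?_)
  · intro l
    rw [hF]
    exact Finset.prod_nonneg fun j _ => norm_nonneg _
  · congr 1
    rw [hF]
    unfold box VS
    exact (Finset.prod_univ_sum (fun j : Fin k =>
      Finset.Icc (-((s * a ^ ((j : ℕ) + 1) : ℕ) : ℤ)) ((s * a ^ ((j : ℕ) + 1) : ℕ) : ℤ))
      (fun (j : Fin k) (m : ℤ) =>
        ‖∑ l ∈ Finset.Icc (-((s * a ^ ((j : ℕ) + 1) : ℕ) : ℤ)) ((s * a ^ ((j : ℕ) + 1) : ℕ) : ℤ),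
          cexp ((β j * l * m : ℝ) * I)‖)).symm

end Pool.Agent.H48.VB
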