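import Mathlib
import Pool.Agent.H48.VB.HoldA
import Pool.Agent.H48.VB.HoldB

/-!
# Hold (B3), from `hold1`, `hold2`, `fib_sum`, `hold3`
-/

set_option autoImplicit false

open Complex

namespace Pool.Agent.H48.VB

open Pool.Agent.H76.VK

theorem hold (k s a : ℕ) (hs : 1 ≤ s) (ha : 1 ≤ a) (β : Fin k → ℝ) :
    ‖W a β‖ ^ (4 * s ^ 2) * (a : ℝ) ^ (4 * s) ≤
      (a : ℝ) ^ (8 * s ^ 2) * (J k s a : ℝ) ^ 2 * ∏ j, VS (β j) (s * a ^ ((j : ℕ) + 1)) := by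
  have h1 := hold1 k s a hs ha β
  have h2 := hold2 k s a hs ha β
  have h3 := hold3 k s a β
  have h4 := fib_sum k s a (fun l => ‖T a β l‖ ^ (2 * s)) (fun l => by positivity)
  have ha0 : (0 : ℝ) ≤ a := Nat.cast_nonneg a
  set S1 := ∑ q ∈ vset s a ×ˢ vset s a, ‖T a β (dv k q)‖ with hS
  have hS0 : 0 ≤ S1 := Finset.sum_nonneg fun _ _ => norm_nonneg _
  have hJ0 : (0 : ℝ) ≤ (J k s a : ℝ) := Nat.cast_nonneg _
  calc ‖W a β‖ ^ (4 * s ^ 2) * (a : ℝ) ^ (4 * s)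
      = (‖W a β‖ ^ (2 * s) * a) ^ (2 * s) * (a : ℝ) ^ (2 * s) := by
        rw [mul_pow, ← pow_mul, show 4 * s ^ 2 = 2 * s * (2 * s) by ring,
          show 4 * s = 2 * s + 2 * s by ring, pow_add]
        ring
    _ ≤ ((a : ℝ) ^ (2 * s) * S1) ^ (2 * s) * (a : ℝ) ^ (2 * s) := by gcongr
    _ = ((a : ℝ) ^ (2 * s)) ^ (2 * s) * (S1 ^ (2 * s) * (a : ℝ) ^ (2 * s)) := by
        rw [mul_pow]; ring
    _ ≤ ((a : ℝ) ^ (2 * s)) ^ (2 * s) * (((a : ℝ) ^ (2 * s)) ^ (2 * s) *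
          ((J k s a : ℝ) * ((J k s a : ℝ) * ∏ j, VS (β j) (s * a ^ ((j : ℕ) + 1))))) := by
        refine mul_le_mul_of_nonneg_left (h2.trans ?_) (by positivity)
        refine mul_le_mul_of_nonneg_left (h4.trans ?_) (by positivity)
        exact mul_le_mul_of_nonneg_left h3 hJ0
    _ = (a : ℝ) ^ (8 * s ^ 2) * (J k s a : ℝ) ^ 2 * ∏ j, VS (β j) (s * a ^ ((j : ℕ) + 1)) := by
        rw [← pow_mul, show 8 * s ^ 2 = 2 * s * (2 * s) + 2 * s * (2 * s) by ring, pow_add]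
        ring

end Pool.Agent.H48.VB
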