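import Mathlib

/-!
# Num: the final inequality in logarithms

`(1 - 1/k)^(4k) ≤ e^(-4) ≤ 1/54` (`1 - x ≤ e^(-x)`; `Real.exp_one_gt_d9`).  From `lam ≥ 200`:
`k ≤ 2 lam + 1 ≤ 2.005 lam`, `k (k+1) ≤ 4.04 lam²`, so `k(k+1)(1-1/k)^(4k) la ≤ 4.04 lam² L/216 ≤
L lam²/53`.  `log(112 L) ≤ L/700` (`L ≥ 40000`), so `k log(112 L) ≤ 2.005 lam L/700 ≤ L lam²/60000`.
`k² log 32 ≤ 3.5 k²`, `2k log(4k²) = 4k log(2k) ≤ 8 k²`.  Hence
`64 k⁴ lw ≤ 128 k⁴ la + 2 A₀ k⁴ + 12 k² - L lam²/30`.  Divide by `64 k⁴`: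
`12k²/(64k⁴) ≤ 1/2`, `A₀/32 ≤ A₀`, `k⁴ ≤ 16.2 lam⁴`, `30 * 64 * 16.2 ≤ 32000`.  About 90 lines.
-/

set_option autoImplicit false

namespace Pool.Agent.H48.VB

private theorem pow_bd (k : ℕ) (hk : 1 ≤ k) : (1 - 1 / (k : ℝ)) ^ (4 * k) ≤ 1 / 54 := by
  have hk0 : (0 : ℝ) < k := by exact_mod_cast hk
  have hk1 : (1 : ℝ) ≤ k := by exact_mod_cast hk
  have h1 : 1 - 1 / (k : ℝ) ≤ Real.exp (-(1 / (k : ℝ))) := by
    have := Real.add_one_le_exp (-(1 / (k : ℝ)))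
    linarith
  have h0 : 0 ≤ 1 - 1 / (k : ℝ) := by
    rw [sub_nonneg, div_le_one hk0]
    exact hk1
  have h2 : (1 - 1 / (k : ℝ)) ^ (4 * k) ≤ Real.exp (-(1 / (k : ℝ))) ^ (4 * k) :=
    pow_le_pow_left₀ h0 h1 _
  have h3 : Real.exp (-(1 / (k : ℝ))) ^ (4 * k) = Real.exp (-4) := by
    rw [← Real.exp_nat_mul]
    congr 1
    push_cast
    field_simp
  have h4 : Real.exp (-4) ≤ 1 / 54 := by
    rw [Real.exp_neg, ← one_div]
    apply one_div_le_one_div_of_le (by norm_num)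
    have h5 : Real.exp 4 = Real.exp 1 ^ 4 := by
      rw [← Real.exp_nat_mul]
      norm_num
    rw [h5]
    have h6 := Real.exp_one_gt_d9
    have h7 : (2.7182 : ℝ) ^ 4 ≤ Real.exp 1 ^ 4 :=
      pow_le_pow_left₀ (by norm_num) (by linarith) _
    have h8 : (54 : ℝ) ≤ (2.7182 : ℝ) ^ 4 := by norm_num
    linarith
  rw [h3] at h2
  linarith

private theorem log_bd (L : ℝ) (hL : 40000 ≤ L) : Real.log (112 * L) ≤ L / 2500 := by
  have h0 : 0 < L := by linarith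
  have h1 : Real.log (112 * L) = Real.log 4480000 + Real.log (L / 40000) := by
    rw [← Real.log_mul (by norm_num) (by positivity)]
    congr 1
    ring
  have h2 : Real.log (L / 40000) ≤ L / 40000 - 1 :=
    Real.log_le_sub_one_of_pos (by positivity)
  have h3 : Real.log 4480000 ≤ 16 := by
    have h4 : Real.log 4480000 ≤ Real.log ((2 : ℝ) ^ 23) :=
      Real.log_le_log (by norm_num) (by norm_num)
    rw [Real.log_pow] at h4
    have h5 := Real.log_two_lt_d9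
    push_cast at h4
    linarith
  rw [h1]
  linarith

theorem num (A₀ : ℝ) (hA₀ : 0 ≤ A₀) (k : ℕ) (lam L la lw : ℝ) (h1 : 200 ≤ lam) (h2 : lam ^ 2 ≤ L)
    (h3 : 2 * lam ≤ k) (h4 : (k : ℝ) ≤ 2 * lam + 1) (h5 : 0 ≤ la) (h6 : la ≤ L / 4)
    (h : 64 * (k : ℝ) ^ 4 * lw ≤ 128 * (k : ℝ) ^ 4 * la + 2 * A₀ * (k : ℝ) ^ 4 +
      (k : ℝ) * (k + 1) * (1 - 1 / (k : ℝ)) ^ (4 * k) * la + k * Real.log (112 * L) +
      (k : ℝ) ^ 2 * Real.log 32 + 2 * k * Real.log (4 * (k : ℝ) ^ 2) - L * lam ^ 2 / 19) :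
    lw ≤ 2 * la + (A₀ + 1) - L / (32000 * lam ^ 2) := by
  have hk400 : (400 : ℝ) ≤ k := by linarith
  have hk0 : (0 : ℝ) < k := by linarith
  have hk1 : 1 ≤ k := by
    have : (1 : ℝ) ≤ k := by linarith
    exact_mod_cast this
  have hl0 : 0 < lam := by linarith
  have hL : 40000 ≤ L := by nlinarith
  have hL0 : 0 < L := by linarith
  have hkl : (k : ℝ) ≤ 2.005 * lam := by linarith
  have hk1l : (k : ℝ) + 1 ≤ 2.01 * lam := by linarith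
  -- the term with la
  have e1 : (k : ℝ) * (k + 1) ≤ 4.04 * lam ^ 2 := by
    have : (k : ℝ) * (k + 1) ≤ (2.005 * lam) * (2.01 * lam) :=
      mul_le_mul hkl hk1l (by linarith) (by linarith)
    nlinarith
  have e2 : (k : ℝ) * (k + 1) * (1 - 1 / (k : ℝ)) ^ (4 * k) * la ≤ L * lam ^ 2 / 53 := by
    have a1 : (k : ℝ) * (k + 1) * (1 - 1 / (k : ℝ)) ^ (4 * k) ≤ 4.04 * lam ^ 2 * (1 / 54) := by
      apply mul_le_mul e1 (pow_bd k hk1)
      · apply pow_nonneg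
        rw [sub_nonneg, div_le_one hk0]
        linarith
      · positivity
    have a2 : (k : ℝ) * (k + 1) * (1 - 1 / (k : ℝ)) ^ (4 * k) * la ≤
        4.04 * lam ^ 2 * (1 / 54) * (L / 4) :=
      mul_le_mul a1 h6 h5 (by positivity)
    have a3 : 0 ≤ lam ^ 2 * L := by positivity
    nlinarith
  -- the logarithm
  have e3 : (k : ℝ) * Real.log (112 * L) ≤ L * lam ^ 2 / 60000 := by
    have a1 : (k : ℝ) * Real.log (112 * L) ≤ (2.005 * lam) * (L / 2500) := by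
      apply mul_le_mul hkl (log_bd L hL)
      · apply Real.log_nonneg
        linarith
      · positivity
    have a2 : 200 * (lam * L) ≤ lam ^ 2 * L := by nlinarith [mul_pos hl0 hL0]
    nlinarith
  have e4 : (k : ℝ) ^ 2 * Real.log 32 ≤ 3.5 * (k : ℝ) ^ 2 := by
    have a1 : Real.log 32 ≤ 3.5 := by
      have a2 : Real.log 32 = Real.log ((2 : ℝ) ^ 5) := by norm_num
      rw [a2, Real.log_pow]
      have h5 := Real.log_two_lt_d9
      push_cast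
      linarith
    nlinarith [sq_nonneg (k : ℝ)]
  have e5 : 2 * (k : ℝ) * Real.log (4 * (k : ℝ) ^ 2) ≤ 8 * (k : ℝ) ^ 2 := by
    have a1 : Real.log (4 * (k : ℝ) ^ 2) = 2 * Real.log (2 * k) := by
      have : (4 * (k : ℝ) ^ 2) = (2 * (k : ℝ)) ^ 2 := by ring
      rw [this, Real.log_pow]
      norm_num
    have a2 : Real.log (2 * (k : ℝ)) ≤ 2 * k - 1 :=
      Real.log_le_sub_one_of_pos (by positivity)
    rw [a1]
    nlinarith
  have e6 : 64 * (k : ℝ) ^ 4 * lw ≤ 128 * (k : ℝ) ^ 4 * la + 2 * A₀ * (k : ℝ) ^ 4 +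
      12 * (k : ℝ) ^ 2 - L * lam ^ 2 / 30 := by
    have a3 : 0 ≤ L * lam ^ 2 := by positivity
    have a4 : 0 ≤ (k : ℝ) ^ 2 := by positivity
    linarith
  have e7 : (k : ℝ) ^ 4 ≤ 16.2 * lam ^ 4 := by
    have a1 : (k : ℝ) ^ 4 ≤ (2.005 * lam) ^ 4 := pow_le_pow_left₀ hk0.le hkl 4
    have a2 : (2.005 * lam) ^ 4 = (2.005 : ℝ) ^ 4 * lam ^ 4 := by ring
    have a3 : (2.005 : ℝ) ^ 4 ≤ 16.2 := by norm_num
    have a4 : 0 ≤ lam ^ 4 := by positivity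
    nlinarith
  have e8 : L / (32000 * lam ^ 2) * (64 * (k : ℝ) ^ 4) ≤ L * lam ^ 2 / 30 := by
    have a1 : L / (32000 * lam ^ 2) * (64 * (k : ℝ) ^ 4) ≤
        L / (32000 * lam ^ 2) * (64 * (16.2 * lam ^ 4)) := by
      apply mul_le_mul_of_nonneg_left _ (by positivity)
      linarith
    have a2 : L / (32000 * lam ^ 2) * (64 * (16.2 * lam ^ 4)) =
        (64 * 16.2 / 32000) * (L * lam ^ 2) := by
      field_simp
    have a3 : 0 ≤ L * lam ^ 2 := by positivity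
    nlinarith
  have e9 : 12 * (k : ℝ) ^ 2 ≤ 64 * (k : ℝ) ^ 4 := by
    have a1 : (1 : ℝ) ≤ (k : ℝ) ^ 2 := by nlinarith
    have a2 : (k : ℝ) ^ 4 = (k : ℝ) ^ 2 * (k : ℝ) ^ 2 := by ring
    rw [a2]
    nlinarith
  have hk4 : (0 : ℝ) < 64 * (k : ℝ) ^ 4 := by positivity
  have e10 : 64 * (k : ℝ) ^ 4 * lw ≤
      64 * (k : ℝ) ^ 4 * (2 * la + (A₀ + 1) - L / (32000 * lam ^ 2)) := by
    have a1 : 64 * (k : ℝ) ^ 4 * (2 * la + (A₀ + 1) - L / (32000 * lam ^ 2)) =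
        128 * (k : ℝ) ^ 4 * la + 64 * (k : ℝ) ^ 4 * A₀ + 64 * (k : ℝ) ^ 4 -
          L / (32000 * lam ^ 2) * (64 * (k : ℝ) ^ 4) := by ring
    have a2 : 0 ≤ (k : ℝ) ^ 4 * A₀ := by positivity
    rw [a1]
    linarith
  exact le_of_mul_le_mul_left e10 hk4

end Pool.Agent.H48.VB
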