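import Mathlib
import Pool.Agent.H48.VB.Defs

/-!
# Gsum: the total saving

All terms are `≥ 0`.  With `m0 = ⌊lam⌋₊`, the indices `j = m0 + 1 + i`, `0 ≤ i < N`,
`N = ⌊lam/3⌋₊ - 1`, satisfy `lam + 1 < j + 1 = m0 + 2 + i ≤ 4 lam/3` (`i ≤ lam/3 - 2`,
`m0 + 2 > lam + 1`), `j < k`, and `gj = j + 1 - lam ≥ i + 1`.  So the sum is at least
`∑_{i<N} (i+1) = N(N+1)/2 ≥ (lam/3 - 2)(lam/3 - 1)/2 = lam²/18 - lam/2 + 1 ≥ lam²/19`
(`lam²/342 ≥ lam/2` for `lam ≥ 171`).  About 60 lines.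
-/

set_option autoImplicit false

namespace Pool.Agent.H48.VB

private theorem gs_nonneg (lam : ℝ) (j : ℕ) : 0 ≤ gj lam j := by
  unfold gj
  split_ifs with h
  · linarith [h.1]
  · exact le_rfl

private theorem gs_sum (N : ℕ) : ∑ i ∈ Finset.range N, ((i : ℝ) + 1) = (N : ℝ) * (N + 1) / 2 := by
  induction N with
  | zero => simp
  | succ N ih =>
    rw [Finset.sum_range_succ, ih]
    push_cast
    ring

theorem gsum (lam : ℝ) (k : ℕ) (h : 200 ≤ lam) (hk : 4 * lam / 3 ≤ k) :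
    lam ^ 2 / 19 ≤ ∑ j ∈ Finset.range k, gj lam j := by
  obtain ⟨m, hm⟩ : ∃ m : ℕ, m = ⌊lam⌋₊ := ⟨_, rfl⟩
  obtain ⟨q, hq⟩ : ∃ q : ℕ, q = ⌊lam / 3⌋₊ := ⟨_, rfl⟩
  have hm1 : (m : ℝ) ≤ lam := by rw [hm]; exact Nat.floor_le (by linarith)
  have hm2 : lam < m + 1 := by rw [hm]; exact Nat.lt_floor_add_one lam
  have hq1 : (q : ℝ) ≤ lam / 3 := by rw [hq]; exact Nat.floor_le (by linarith)
  have hq2 : lam / 3 < q + 1 := by rw [hq]; exact Nat.lt_floor_add_one _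
  have hq3 : 1 ≤ q := by
    have h1 : (1 : ℝ) < q + 1 := by linarith
    have h2 : 0 < q := by
      by_contra h3
      have h4 : q = 0 := by omega
      rw [h4] at h1
      norm_num at h1
    omega
  obtain ⟨N, hN⟩ : ∃ N : ℕ, q = N + 1 := ⟨q - 1, by omega⟩
  rw [hN] at hq1 hq2
  push_cast at hq1 hq2
  have hterm : ∀ i ∈ Finset.range N, (i : ℝ) + 1 ≤ gj lam (m + 1 + i) := by
    intro i hi
    have hi1 : i + 1 ≤ N := Finset.mem_range.mp hi
    have hi2 : (i : ℝ) + 1 ≤ N := by exact_mod_cast hi1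
    unfold gj
    push_cast
    rw [if_pos ⟨by linarith, by linarith⟩]
    linarith
  have hsub : (Finset.range N).map (addLeftEmbedding (m + 1)) ⊆ Finset.range k := by
    intro j hj
    rw [Finset.mem_map] at hj
    obtain ⟨i, hi, rfl⟩ := hj
    have hi1 : i + 1 ≤ N := Finset.mem_range.mp hi
    have hi2 : (i : ℝ) + 1 ≤ N := by exact_mod_cast hi1
    rw [Finset.mem_range, addLeftEmbedding_apply]
    have h1 : ((m + 1 + i : ℕ) : ℝ) < k := by
      push_cast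
      linarith
    exact_mod_cast h1
  have h1 : ∑ i ∈ Finset.range N, ((i : ℝ) + 1) ≤ ∑ j ∈ Finset.range k, gj lam j := by
    refine (Finset.sum_le_sum hterm).trans ?_
    have h2 : ∑ i ∈ Finset.range N, gj lam (m + 1 + i) =
        ∑ j ∈ (Finset.range N).map (addLeftEmbedding (m + 1)), gj lam j := by
      rw [Finset.sum_map]
      rfl
    rw [h2]
    exact Finset.sum_le_sum_of_subset_of_nonneg hsub fun j _ _ => gs_nonneg lam j
  rw [gs_sum] at h1
  have hN1 : lam / 3 - 2 ≤ N := by linarith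
  have hN2 : 0 ≤ lam / 3 - 2 := by linarith
  have h3 : (lam / 3 - 2) * (lam / 3 - 1) ≤ (N : ℝ) * (N + 1) :=
    mul_le_mul hN1 (by linarith) (by linarith) (by linarith)
  nlinarith

end Pool.Agent.H48.VB
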