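import Mathlib
import Pool.Agent.H48.VB.Defs

/-!
# Geo: the geometric sum

`∑_{|l| ≤ Y} e^(iθl)` is a geometric sum of `2Y+1` terms with ratio `q = e^(iθ)`, first term of norm 1
(write the index as `l = i - Y`, `i < 2Y+1`), so its norm is `≤ 2/‖q - 1‖` when `q ≠ 1`
(`geom_sum_eq`); `‖q - 1‖ = 2 |sin(θ/2)| = 2 |sin((θ - 2πν)/2)| ≥ (2/π)|θ - 2πν|`
(`Real.mul_le_sin` : `2/π x ≤ sin x` on `[0, π/2]`).  Trivial bound: `norm_sum_le`, `Int.card_Icc`.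
`vs_triv` from `geo_triv`.  About 80 lines.
-/

set_option autoImplicit false

open Complex

namespace Pool.Agent.H48.VB

private theorem tele (f : ℤ → ℂ) (Y : ℕ) :
    ∑ l ∈ Finset.Icc (-(Y : ℤ)) Y, (f (l + 1) - f l) = f (Y + 1) - f (-Y) := by
  have h0 := Finset.sum_range_sub (fun i : ℕ => f ((i : ℤ) - (Y : ℤ))) (2 * Y + 1)
  have h1 : ∑ l ∈ Finset.Icc (-(Y : ℤ)) Y, (f (l + 1) - f l) =
      ∑ i ∈ Finset.range (2 * Y + 1),
        (f (((i + 1 : ℕ) : ℤ) - (Y : ℤ)) - f ((i : ℤ) - (Y : ℤ))) := by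
    apply Finset.sum_nbij' (fun l : ℤ => (l + (Y : ℤ)).toNat) (fun i : ℕ => (i : ℤ) - (Y : ℤ))
    · intro a ha
      simp only [Finset.mem_Icc] at ha
      simp only [Finset.mem_range]
      omega
    · intro a ha
      simp only [Finset.mem_range] at ha
      simp only [Finset.mem_Icc]
      omega
    · intro a ha
      simp only [Finset.mem_Icc] at ha
      omega
    · intro a ha
      simp only [Finset.mem_range] at ha
      omega
    · intro a ha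
      simp only [Finset.mem_Icc] at ha
      have e1 : ((((a + (Y : ℤ)).toNat + 1 : ℕ) : ℤ) - (Y : ℤ)) = a + 1 := by
        push_cast
        omega
      have e2 : ((((a + (Y : ℤ)).toNat : ℕ) : ℤ) - (Y : ℤ)) = a := by omega
      rw [e1, e2]
  rw [h1]
  refine h0.trans ?_
  have e3 : (((2 * Y + 1 : ℕ) : ℤ) - (Y : ℤ)) = Y + 1 := by
    push_cast
    ring
  have e4 : (((0 : ℕ) : ℤ) - (Y : ℤ)) = -(Y : ℤ) := by
    push_cast
    ring
  rw [e3, e4]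

theorem geo (Y : ℕ) (θ : ℝ) (ν : ℤ) (h : |θ - 2 * Real.pi * ν| ≤ Real.pi)
    (h0 : θ - 2 * Real.pi * ν ≠ 0) :
    ‖∑ l ∈ Finset.Icc (-(Y : ℤ)) Y, cexp ((θ * l : ℝ) * I)‖ ≤
      Real.pi / |θ - 2 * Real.pi * ν| := by
  set φ : ℝ := θ - 2 * Real.pi * ν with hφ
  have hpi := Real.pi_pos
  have hφ0 : 0 < |φ| := abs_pos.mpr h0
  -- the telescoping identity
  have h1 : (cexp ((θ : ℝ) * I) - 1) * ∑ l ∈ Finset.Icc (-(Y : ℤ)) Y, cexp ((θ * l : ℝ) * I) =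
      cexp ((θ * ((Y + 1 : ℤ) : ℝ) : ℝ) * I) - cexp ((θ * ((-(Y : ℤ) : ℤ) : ℝ) : ℝ) * I) := by
    rw [← tele (fun l : ℤ => cexp ((θ * (l : ℝ) : ℝ) * I)) Y, Finset.mul_sum]
    apply Finset.sum_congr rfl
    intro l _
    rw [sub_mul, one_mul, ← Complex.exp_add]
    congr 2
    push_cast
    ring
  have h2 : ‖cexp ((θ : ℝ) * I) - 1‖ * ‖∑ l ∈ Finset.Icc (-(Y : ℤ)) Y, cexp ((θ * l : ℝ) * I)‖ ≤ 2 := by
    rw [← norm_mul, h1]
    refine (norm_sub_le _ _).trans ?_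
    rw [Complex.norm_exp_ofReal_mul_I, Complex.norm_exp_ofReal_mul_I]
    norm_num
  have h3 : cexp ((θ : ℝ) * I) = cexp (I * (φ : ℝ)) := by
    have : ((θ : ℝ) : ℂ) * I = I * (φ : ℝ) + ν * (2 * Real.pi * I) := by
      rw [hφ]
      push_cast
      ring
    rw [this, Complex.exp_add, Complex.exp_int_mul_two_pi_mul_I, mul_one]
  have h4 : 2 / Real.pi * |φ| ≤ ‖cexp ((θ : ℝ) * I) - 1‖ := by
    rw [h3, Complex.norm_exp_I_mul_ofReal_sub_one, norm_mul, Real.norm_eq_abs, Real.norm_eq_abs]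
    have h5 : |φ / 2| ≤ Real.pi / 2 := by
      rw [abs_div, abs_two]
      linarith
    have h6 := Real.mul_abs_le_abs_sin h5
    rw [abs_div, abs_two] at h6
    rw [abs_two]
    have h7 : 2 / Real.pi * |φ| = 2 * (2 / Real.pi * (|φ| / 2)) := by ring
    linarith
  set S := ‖∑ l ∈ Finset.Icc (-(Y : ℤ)) Y, cexp ((θ * l : ℝ) * I)‖ with hS
  have hS0 : 0 ≤ S := norm_nonneg _
  have h8 : 2 / Real.pi * |φ| * S ≤ 2 := (mul_le_mul_of_nonneg_right h4 hS0).trans h2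
  rw [le_div_iff₀ hφ0]
  have h9 : 2 / Real.pi * |φ| * S = (2 / Real.pi) * (S * |φ|) := by ring
  rw [h9] at h8
  have h10 : (2 / Real.pi) * (S * |φ|) ≤ (2 / Real.pi) * Real.pi := by
    rw [div_mul_cancel₀ _ hpi.ne']
    exact h8
  exact le_of_mul_le_mul_left h10 (by positivity)

theorem geo_triv (Y : ℕ) (θ : ℝ) :
    ‖∑ l ∈ Finset.Icc (-(Y : ℤ)) Y, cexp ((θ * l : ℝ) * I)‖ ≤ 2 * Y + 1 := by
  refine (norm_sum_le _ _).trans ?_
  have h1 : ∑ l ∈ Finset.Icc (-(Y : ℤ)) Y, ‖cexp ((θ * l : ℝ) * I)‖ =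
      ∑ l ∈ Finset.Icc (-(Y : ℤ)) Y, (1 : ℝ) := by
    apply Finset.sum_congr rfl
    intro l _
    exact Complex.norm_exp_ofReal_mul_I _
  rw [h1, Finset.sum_const, Int.card_Icc, nsmul_eq_mul, mul_one]
  have h2 : ((Y : ℤ) + 1 - -(Y : ℤ)).toNat = 2 * Y + 1 := by omega
  rw [h2]
  push_cast
  exact le_rfl

theorem vs_triv (β : ℝ) (Y : ℕ) : VS β Y ≤ (2 * Y + 1) ^ 2 := by
  unfold VS
  have h1 : ∀ m ∈ Finset.Icc (-(Y : ℤ)) Y,
      ‖∑ l ∈ Finset.Icc (-(Y : ℤ)) Y, cexp ((β * l * m : ℝ) * I)‖ ≤ 2 * (Y : ℝ) + 1 := by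
    intro m _
    have h2 := geo_triv Y (β * m)
    have h3 : ∑ l ∈ Finset.Icc (-(Y : ℤ)) Y, cexp ((β * l * m : ℝ) * I) =
        ∑ l ∈ Finset.Icc (-(Y : ℤ)) Y, cexp ((β * m * l : ℝ) * I) := by
      apply Finset.sum_congr rfl
      intro l _
      congr 3
      ring
    rw [h3]
    exact h2
  refine (Finset.sum_le_sum h1).trans ?_
  rw [Finset.sum_const, Int.card_Icc, nsmul_eq_mul]
  have h2 : ((Y : ℤ) + 1 - -(Y : ℤ)).toNat = 2 * Y + 1 := by omega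
  rw [h2]
  push_cast
  apply le_of_eq
  ring

end Pool.Agent.H48.VB
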