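import Mathlib

/-!
# Near: sums over integers near a real point

At most 2 integers have `|m - c| < 1`: they contribute `≤ 2 P`.  For the others `i = ⌊|m - c|⌋₊` lies
in `[1, ⌊R⌋₊]`, each value `i` is taken by at most 2 integers (`m ∈ [c+i, c+i+1)` or
`m ∈ (c-i-1, c-i]`), and `F m ≤ Q/|m-c| ≤ Q/i`; `∑_{i ≤ ⌊R⌋} 1/i ≤ 1 + log R`
(`harmonic_le_one_add_log`, `harmonic_floor_le_one_add_log`).  About 90 lines.
-/

set_option autoImplicit false

namespace Pool.Agent.H48.VB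

theorem near_sum (c R : ℝ) (hR : 1 ≤ R) (S : Finset ℤ) (hS : ∀ m ∈ S, |(m : ℝ) - c| ≤ R)
    (F : ℤ → ℝ) (P Q : ℝ) (hP : 0 ≤ P) (hQ : 0 ≤ Q) (h1 : ∀ m ∈ S, F m ≤ P)
    (h2 : ∀ m ∈ S, 1 ≤ |(m : ℝ) - c| → F m ≤ Q / |(m : ℝ) - c|) :
    ∑ m ∈ S, F m ≤ 2 * P + 2 * Q * (1 + Real.log R) := by
  classical
  set S0 := S.filter (fun m : ℤ => |(m : ℝ) - c| < 1) with hS0
  set S1 := S.filter (fun m : ℤ => ¬ |(m : ℝ) - c| < 1) with hS1
  have hsplit : ∑ m ∈ S, F m = ∑ m ∈ S0, F m + ∑ m ∈ S1, F m :=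
    (Finset.sum_filter_add_sum_filter_not S _ _).symm
  have hA : ∑ m ∈ S0, F m ≤ 2 * P := by
    have hsub : S0 ⊆ {⌊c⌋, ⌊c⌋ + 1} := by
      intro m hm
      rw [hS0, Finset.mem_filter] at hm
      obtain ⟨h3, h4⟩ := abs_lt.mp hm.2
      have h5 : ⌊c⌋ ≤ m := by
        have h6 : ⌊c⌋ < m + 1 := Int.floor_lt.mpr (by push_cast; linarith)
        omega
      have h6 : m ≤ ⌊c⌋ + 1 := by
        have h7 : m - 1 ≤ ⌊c⌋ := Int.le_floor.mpr (by push_cast; linarith)
        omega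
      simp only [Finset.mem_insert, Finset.mem_singleton]
      omega
    have hcard : (S0.card : ℝ) ≤ 2 := by
      have := (Finset.card_le_card hsub).trans Finset.card_le_two
      exact_mod_cast this
    calc ∑ m ∈ S0, F m ≤ ∑ _m ∈ S0, P :=
          Finset.sum_le_sum fun m hm => h1 m (Finset.mem_filter.mp hm).1
      _ = S0.card * P := by rw [Finset.sum_const, nsmul_eq_mul]
      _ ≤ 2 * P := mul_le_mul_of_nonneg_right hcard hP
  have hB : ∑ m ∈ S1, F m ≤ 2 * Q * (1 + Real.log R) := by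
    let g : ℤ → ℕ := fun m => ⌊|(m : ℝ) - c|⌋₊
    have hmem : ∀ m ∈ S1, m ∈ S ∧ 1 ≤ |(m : ℝ) - c| := by
      intro m hm
      rw [hS1, Finset.mem_filter] at hm
      exact ⟨hm.1, not_lt.mp hm.2⟩
    have hmaps : ∀ m ∈ S1, g m ∈ Finset.Icc 1 ⌊R⌋₊ := by
      intro m hm
      obtain ⟨h3, h4⟩ := hmem m hm
      rw [Finset.mem_Icc]
      exact ⟨Nat.le_floor (by simpa using h4), Nat.floor_le_floor (hS m h3)⟩
    have hfib : ∀ i ∈ Finset.Icc 1 ⌊R⌋₊, ∑ m ∈ S1 with g m = i, F m ≤ 2 * Q * (i : ℝ)⁻¹ := by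
      intro i hi
      have hi1 : 1 ≤ i := (Finset.mem_Icc.mp hi).1
      have hi0 : (0 : ℝ) < i := by exact_mod_cast hi1
      have hsub : (S1.filter fun m => g m = i) ⊆ {⌈c⌉ + (i : ℤ), ⌊c⌋ - (i : ℤ)} := by
        intro m hm
        rw [Finset.mem_filter] at hm
        have h3 : (i : ℝ) ≤ |(m : ℝ) - c| := by
          rw [← hm.2]; exact Nat.floor_le (abs_nonneg _)
        have h4 : |(m : ℝ) - c| < i + 1 := by
          rw [← hm.2]; exact Nat.lt_floor_add_one _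
        simp only [Finset.mem_insert, Finset.mem_singleton]
        rcases le_total c (m : ℝ) with h5 | h5
        · left
          rw [abs_of_nonneg (by linarith)] at h3 h4
          have h6 : ⌈c⌉ ≤ m - (i : ℤ) := Int.ceil_le.mpr (by push_cast; linarith)
          have h7 : m - (i : ℤ) - 1 < ⌈c⌉ := Int.lt_ceil.mpr (by push_cast; linarith)
          omega
        · right
          rw [abs_of_nonpos (by linarith)] at h3 h4
          have h6 : m + (i : ℤ) ≤ ⌊c⌋ := Int.le_floor.mpr (by push_cast; linarith)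
          have h7 : ⌊c⌋ < m + (i : ℤ) + 1 := Int.floor_lt.mpr (by push_cast; linarith)
          omega
      have hcard : (((S1.filter fun m => g m = i).card : ℕ) : ℝ) ≤ 2 := by
        have := (Finset.card_le_card hsub).trans Finset.card_le_two
        exact_mod_cast this
      calc ∑ m ∈ S1 with g m = i, F m ≤ ∑ _m ∈ S1 with g _m = i, Q * (i : ℝ)⁻¹ := by
            refine Finset.sum_le_sum fun m hm => ?_
            rw [Finset.mem_filter] at hm
            obtain ⟨h3, h4⟩ := hmem m hm.1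
            refine (h2 m h3 h4).trans ?_
            have h5 : (i : ℝ) ≤ |(m : ℝ) - c| := by
              rw [← hm.2]; exact Nat.floor_le (abs_nonneg _)
            rw [div_eq_mul_inv]
            exact mul_le_mul_of_nonneg_left (inv_anti₀ hi0 h5) hQ
        _ = (S1.filter fun m => g m = i).card * (Q * (i : ℝ)⁻¹) := by
            rw [Finset.sum_const, nsmul_eq_mul]
        _ ≤ 2 * (Q * (i : ℝ)⁻¹) :=
            mul_le_mul_of_nonneg_right hcard (mul_nonneg hQ (inv_nonneg.mpr hi0.le))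
        _ = 2 * Q * (i : ℝ)⁻¹ := by ring
    have hharm : ∑ i ∈ Finset.Icc 1 ⌊R⌋₊, (i : ℝ)⁻¹ ≤ 1 + Real.log R := by
      have h3 := harmonic_floor_le_one_add_log R hR
      rw [harmonic_eq_sum_Icc] at h3
      push_cast at h3
      exact h3
    calc ∑ m ∈ S1, F m = ∑ i ∈ Finset.Icc 1 ⌊R⌋₊, ∑ m ∈ S1 with g m = i, F m :=
          (Finset.sum_fiberwise_of_maps_to hmaps F).symm
      _ ≤ ∑ i ∈ Finset.Icc 1 ⌊R⌋₊, 2 * Q * (i : ℝ)⁻¹ := Finset.sum_le_sum hfib
      _ = 2 * Q * ∑ i ∈ Finset.Icc 1 ⌊R⌋₊, (i : ℝ)⁻¹ := by rw [Finset.mul_sum]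
      _ ≤ 2 * Q * (1 + Real.log R) :=
          mul_le_mul_of_nonneg_left hharm (by positivity)
  rw [hsplit]
  linarith

end Pool.Agent.H48.VB
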