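import Mathlib
import Pool.Agent.H48.VB.Defs
import Pool.Agent.H48.VB.Geo
import Pool.Agent.H48.VB.Near

/-!
# Vsum (B4)

Split `m ∈ [-Y, Y]` by `ν = round (β m / (2π))` (`Finset.sum_fiberwise_of_maps_to`), so
`|β m - 2πν| ≤ π` (`abs_sub_round`), `c = 2πν/β`, `|m - c| ≤ R = π/|β|` (`R ≥ 1`).
`near_sum` with `P = 2Y+1` (`geo_triv`), `Q = π/|β|` (`geo`: the term is `≤ π/|βm - 2πν| =
π/(|β||m-c|)`): each fibre is at most `2(2Y+1) + (2π/|β|)(1 + log(π/|β|)) ≤
6Y + (2π (1 + log π)/|β|)(1 + log(1/|β|)) ≤ 14 (Y + (1 + log(1/|β|))/|β|)` (`log π ≤ 1.15`,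
`2π·2.15 ≤ 14`, `log(1/|β|) ≥ 0`).  The values: `|ν| ≤ Y|β|/(2π) + 1/2`, at most
`2⌊Y|β|/(2π)+1/2⌋ + 1 ≤ 2(Y|β| + 1)` of them.  About 110 lines.
(The phase in `VS` is `β * l * m`; `β * l * m = (β * m) * l`.)
-/

set_option autoImplicit false

open Complex

namespace Pool.Agent.H48.VB

private theorem log_pi_le : Real.log Real.pi ≤ 1.15 := by
  rw [Real.log_le_iff_le_exp Real.pi_pos]
  have h1 : Real.pi ≤ 3.15 := Real.pi_lt_d2.le
  have h2 : (3.15 : ℝ) ≤ Real.exp 1.15 := by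
    have h3 : (2.7182818283 : ℝ) < Real.exp 1 := Real.exp_one_gt_d9
    have h4 : 1 + 0.15 + 0.15 ^ 2 / 2 ≤ Real.exp 0.15 := by
      have := Real.quadratic_le_exp_of_nonneg (x := 0.15) (by norm_num)
      linarith
    have h5 : Real.exp 1.15 = Real.exp 1 * Real.exp 0.15 := by
      rw [← Real.exp_add]
      norm_num
    rw [h5]
    have h6 : (0 : ℝ) < Real.exp 1 := Real.exp_pos 1
    nlinarith
  linarith

private theorem term_le {β : ℝ} (h0 : 0 < |β|) (h1 : |β| ≤ 1) {Y : ℕ} (hY : 1 ≤ Y) :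
    2 * (2 * (Y : ℝ) + 1) + 2 * (Real.pi / |β|) * (1 + Real.log (Real.pi / |β|)) ≤
      14 * (Y + (1 + Real.log (1 / |β|)) / |β|) := by
  have hY' : (1 : ℝ) ≤ Y := by exact_mod_cast hY
  have hlog : 0 ≤ Real.log (1 / |β|) := Real.log_nonneg (by rw [le_div_iff₀ h0]; linarith)
  have h2 : Real.log (Real.pi / |β|) = Real.log Real.pi + Real.log (1 / |β|) := by
    rw [← Real.log_mul Real.pi_pos.ne' (by positivity)]
    congr 1
    ring
  have h3 : 1 + Real.log (Real.pi / |β|) ≤ 2.15 * (1 + Real.log (1 / |β|)) := by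
    rw [h2]
    have := log_pi_le
    nlinarith
  have hpi : Real.pi ≤ 3.15 := Real.pi_lt_d2.le
  have h4 : 2 * (Real.pi / |β|) * (1 + Real.log (Real.pi / |β|)) ≤
      14 * ((1 + Real.log (1 / |β|)) / |β|) := by
    have h5 : 2 * (Real.pi / |β|) * (1 + Real.log (Real.pi / |β|)) ≤
        2 * (Real.pi / |β|) * (2.15 * (1 + Real.log (1 / |β|))) :=
      mul_le_mul_of_nonneg_left h3 (by positivity)
    have h6 : 2 * (Real.pi / |β|) * (2.15 * (1 + Real.log (1 / |β|))) =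
        (4.3 * Real.pi) * ((1 + Real.log (1 / |β|)) / |β|) := by
      field_simp
      ring
    rw [h6] at h5
    refine h5.trans (mul_le_mul_of_nonneg_right (by linarith) ?_)
    exact div_nonneg (by linarith) h0.le
  linarith

theorem vs_le (β : ℝ) (Y : ℕ) (hY : 1 ≤ Y) (h0 : 0 < |β|) (h1 : |β| ≤ 1) :
    VS β Y ≤ 28 * (Y * |β| + 1) * (Y + (1 + Real.log (1 / |β|)) / |β|) := by
  classical
  have hpi := Real.pi_pos
  have hpi3 : (3 : ℝ) < Real.pi := Real.pi_gt_three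
  have hY' : (1 : ℝ) ≤ Y := by exact_mod_cast hY
  have hβ : β ≠ 0 := abs_pos.1 h0
  have hlog : 0 ≤ Real.log (1 / |β|) := Real.log_nonneg (by rw [le_div_iff₀ h0]; linarith)
  set F : ℤ → ℝ := fun m => ‖∑ l ∈ Finset.Icc (-(Y : ℤ)) Y, cexp ((β * l * m : ℝ) * I)‖ with hF
  have hF' : ∀ m : ℤ, F m = ‖∑ l ∈ Finset.Icc (-(Y : ℤ)) Y, cexp (((β * m) * l : ℝ) * I)‖ := by
    intro m
    simp only [hF]
    congr 1
    refine Finset.sum_congr rfl fun l _ => ?_
    rw [mul_right_comm β (l : ℝ) (m : ℝ)]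
  let g : ℤ → ℤ := fun m => round (β * m / (2 * Real.pi))
  have hg : ∀ m : ℤ, |β * m - 2 * Real.pi * (g m : ℝ)| ≤ Real.pi := by
    intro m
    have h2 : |β * m / (2 * Real.pi) - (g m : ℝ)| ≤ 1 / 2 := abs_sub_round _
    have h3 : β * m - 2 * Real.pi * (g m : ℝ) =
        (2 * Real.pi) * (β * m / (2 * Real.pi) - (g m : ℝ)) := by
      field_simp
    rw [h3, abs_mul, abs_of_pos (by positivity : (0 : ℝ) < 2 * Real.pi)]
    nlinarith
  set z : ℝ := Y * |β| / (2 * Real.pi) + 1 / 2 with hz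
  let B : ℤ := ⌊z⌋
  have hz0 : 0 ≤ z := by positivity
  have hB0 : 0 ≤ B := Int.floor_nonneg.2 hz0
  have hgz : ∀ m ∈ Finset.Icc (-(Y : ℤ)) Y, |(g m : ℝ)| ≤ z := by
    intro m hm
    rw [Finset.mem_Icc] at hm
    have h2 : |β * m / (2 * Real.pi) - (g m : ℝ)| ≤ 1 / 2 := abs_sub_round _
    have h3 : |(m : ℝ)| ≤ Y := by
      rw [abs_le]
      constructor
      · have := hm.1
        exact_mod_cast this
      · exact_mod_cast hm.2
    have h4 : |β * m / (2 * Real.pi)| ≤ Y * |β| / (2 * Real.pi) := by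
      rw [abs_div, abs_mul, abs_of_pos (by positivity : (0 : ℝ) < 2 * Real.pi), mul_comm |β|]
      exact div_le_div_of_nonneg_right (mul_le_mul_of_nonneg_right h3 (abs_nonneg β))
        (by positivity)
    rw [abs_le] at h2 h4 ⊢
    constructor <;> rw [hz] <;> linarith [h2.1, h2.2, h4.1, h4.2]
  have hmaps : ∀ m ∈ Finset.Icc (-(Y : ℤ)) Y, g m ∈ Finset.Icc (-B) B := by
    intro m hm
    have h2 := abs_le.1 (hgz m hm)
    rw [Finset.mem_Icc]
    constructor
    · rw [neg_le]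
      apply Int.le_floor.2
      push_cast
      linarith [h2.1]
    · exact Int.le_floor.2 h2.2
  have hfib : ∀ ν ∈ Finset.Icc (-B) B,
      ∑ m ∈ Finset.Icc (-(Y : ℤ)) Y with g m = ν, F m ≤
        14 * (Y + (1 + Real.log (1 / |β|)) / |β|) := by
    intro ν _
    have hkey : ∀ m : ℤ, β * m - 2 * Real.pi * (ν : ℝ) = β * (m - 2 * Real.pi * ν / β) := by
      intro m
      field_simp
    refine (near_sum (2 * Real.pi * ν / β) (Real.pi / |β|) ?_ _ ?_ F (2 * (Y : ℝ) + 1)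
      (Real.pi / |β|) (by positivity) (by positivity) ?_ ?_).trans (term_le h0 h1 hY)
    · rw [le_div_iff₀ h0]
      linarith
    · intro m hm
      rw [Finset.mem_filter] at hm
      have h2 := hg m
      rw [hm.2, hkey, abs_mul] at h2
      rw [le_div_iff₀ h0, mul_comm]
      exact h2
    · intro m _
      rw [hF']
      exact geo_triv Y _
    · intro m hm h3
      rw [Finset.mem_filter] at hm
      have h2 := hg m
      rw [hm.2] at h2
      have h4 : β * m - 2 * Real.pi * (ν : ℝ) ≠ 0 := by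
        rw [hkey]
        exact mul_ne_zero hβ (abs_pos.1 (by linarith))
      rw [hF']
      refine (geo Y (β * m) ν h2 h4).trans (le_of_eq ?_)
      rw [hkey, abs_mul, div_div]
  have hcard : ((Finset.Icc (-B) B).card : ℝ) ≤ 2 * (Y * |β| + 1) := by
    rw [Int.card_Icc]
    have h2 : ((B + 1 - -B).toNat : ℤ) = 2 * B + 1 := by
      rw [Int.toNat_of_nonneg (by omega)]
      ring
    have h3 : (((B + 1 - -B).toNat : ℕ) : ℝ) = 2 * (B : ℝ) + 1 := by exact_mod_cast h2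
    rw [h3]
    have h4 : (B : ℝ) ≤ z := Int.floor_le z
    have h5 : Y * |β| / (2 * Real.pi) ≤ Y * |β| / 2 := by
      apply div_le_div_of_nonneg_left (by positivity) (by norm_num)
      linarith
    have h6 : 0 ≤ Y * |β| := by positivity
    rw [hz] at h4
    linarith
  have hpos : 0 ≤ 14 * (Y + (1 + Real.log (1 / |β|)) / |β|) := by positivity
  calc VS β Y = ∑ m ∈ Finset.Icc (-(Y : ℤ)) Y, F m := rfl
    _ = ∑ ν ∈ Finset.Icc (-B) B, ∑ m ∈ Finset.Icc (-(Y : ℤ)) Y with g m = ν, F m :=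
        (Finset.sum_fiberwise_of_maps_to hmaps _).symm
    _ ≤ ∑ _ν ∈ Finset.Icc (-B) B, 14 * (Y + (1 + Real.log (1 / |β|)) / |β|) :=
        Finset.sum_le_sum hfib
    _ = (Finset.Icc (-B) B).card * (14 * (Y + (1 + Real.log (1 / |β|)) / |β|)) := by
        rw [Finset.sum_const, nsmul_eq_mul]
    _ ≤ (2 * (Y * |β| + 1)) * (14 * (Y + (1 + Real.log (1 / |β|)) / |β|)) :=
        mul_le_mul_of_nonneg_right hcard hpos
    _ = 28 * (Y * |β| + 1) * (Y + (1 + Real.log (1 / |β|)) / |β|) := by ring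

end Pool.Agent.H48.VB
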