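import Mathlib
import Pool.Agent.H48.VB.Defs
import Pool.Agent.H48.VB.Vsum

/-!
# Vj (B5, one degree)

Write `j' = j + 1`, `b = |bet k u n j| = |u|/(j' n^j')`, `Y = s a^j'`, `L = log A`.
Case `gj = 0` (the `if` is false): `vs_triv`: `(2Y+1)^2 ≤ 9 Y^2 ≤ 112 * 32^j' * L * Y^2` (`Y ≥ 1`).
Case `lam + 1 < j' ≤ 4 lam/3`: `b ≤ A^(lam - j')/j' ≤ 1` and `b ≥ A^(lam-j')/(j' 2^j')`.
`vs_le`: `VS ≤ 28 (Y b + 1)(Y + ℓ/b)`, `ℓ = 1 + log(1/b) ≥ 1`, so
`VS ≤ 28 ℓ (Y² b + 2 Y + 1/b) = 28 ℓ Y² (b + 2/Y + 1/(b Y²))`;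
`b ≤ A^(-(j'-lam))`; `1/Y ≤ 1/a^j' ≤ 2^j' A^(-j'/4) ≤ 2^j' A^(-(j'-lam))` (`j' - lam ≤ j'/4`);
`1/(b Y²) ≤ j' 2^j' A^(j'-lam) 4^j' A^(-j'/2) ≤ j' 8^j' A^(-(j'-lam))`; the sum of the three is
`≤ 4 j' 8^j' A^(-(j'-lam)) ≤ 4 * 16^j' A^(-(j'-lam))`.
`ℓ ≤ 1 + log j' + j' log 2 + (j'-lam) L ≤ 1 + 2j' + j' L/4 ≤ j' L` (`L ≥ 4`), and `j' ≤ 2^j'`.
Together `VS ≤ 28 * j' L * 4 * 16^j' Y² A^(-(j'-lam)) ≤ 112 * 32^j' L Y² A^(-(j'-lam))`.
About 140 lines.
-/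

set_option autoImplicit false

open Complex

namespace Pool.Agent.H48.VB

private theorem vs_trivial (β : ℝ) (Y : ℕ) : VS β Y ≤ (2 * (Y : ℝ) + 1) ^ 2 := by
  have hcard : ((Finset.Icc (-(Y : ℤ)) Y).card : ℝ) = 2 * Y + 1 := by
    rw [Int.card_Icc]
    have : ((Y : ℤ) + 1 - (-(Y : ℤ))).toNat = 2 * Y + 1 := by omega
    rw [this]
    push_cast
    ring
  unfold VS
  have h1 : ∀ m ∈ Finset.Icc (-(Y : ℤ)) Y,
      ‖∑ l ∈ Finset.Icc (-(Y : ℤ)) Y, cexp ((β * l * m : ℝ) * I)‖ ≤ 2 * Y + 1 := by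
    intro m _
    refine (norm_sum_le _ _).trans ?_
    rw [← hcard]
    refine (Finset.sum_le_card_nsmul _ _ 1 fun l _ => ?_).trans (by simp)
    rw [Complex.norm_exp_ofReal_mul_I]
  refine (Finset.sum_le_card_nsmul _ _ _ h1).trans ?_
  rw [nsmul_eq_mul, hcard, sq]

theorem vj (u lam : ℝ) (A n a s k : ℕ) (j : Fin k) (hL : 4 ≤ Real.log A) (hlam : 1 ≤ lam)
    (hu : |u| = (A : ℝ) ^ lam) (hn1 : A ≤ n) (hn2 : n ≤ 2 * A) (ha1 : (a : ℝ) ≤ (A : ℝ) ^ (1 / 4 : ℝ))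
    (ha2 : (A : ℝ) ^ (1 / 4 : ℝ) / 2 ≤ a) (hs : 1 ≤ s) :
    VS (bet k u n j) (s * a ^ ((j : ℕ) + 1)) ≤
      112 * 32 ^ ((j : ℕ) + 1) * Real.log A * ((s : ℝ) * (a : ℝ) ^ ((j : ℕ) + 1)) ^ 2 *
        (A : ℝ) ^ (-gj lam j) := by
  set L : ℝ := Real.log A with hLd
  have hA1 : 1 ≤ A := by
    rcases Nat.eq_zero_or_pos A with h | h
    · rw [hLd, h] at hL
      norm_num at hL
    · exact h
  have hA0 : (0 : ℝ) < A := by exact_mod_cast hA1
  have hAe : (A : ℝ) = Real.exp L := (Real.exp_log hA0).symm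
  have hn0 : (0 : ℝ) < n := by exact_mod_cast (hA1.trans hn1)
  have hre : (A : ℝ) ^ (1 / 4 : ℝ) = Real.exp (L / 4) := by
    rw [Real.rpow_def_of_pos hA0]
    congr 1
    ring
  rw [hre] at ha1 ha2
  have hr2 : 2 ≤ Real.exp (L / 4) := by
    have := Real.add_one_le_exp (L / 4)
    linarith
  have ha0 : (0 : ℝ) < a := by linarith
  have ha4 : 1 ≤ a := by exact_mod_cast ha0
  have hs0 : (1 : ℝ) ≤ s := by exact_mod_cast hs
  set p : ℕ := (j : ℕ) + 1 with hp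
  have hp1 : (1 : ℝ) ≤ p := by rw [hp]; push_cast; linarith [(Nat.cast_nonneg (j : ℕ) : (0 : ℝ) ≤ _)]
  set Y : ℕ := s * a ^ p with hY
  have hYr : (Y : ℝ) = (s : ℝ) * (a : ℝ) ^ p := by rw [hY]; push_cast; ring
  have hY1 : 1 ≤ Y := by
    rw [hY]
    exact Nat.one_le_iff_ne_zero.2 (Nat.mul_ne_zero (by omega) (pow_ne_zero _ (by omega)))
  have hY1r : (1 : ℝ) ≤ Y := by exact_mod_cast hY1
  rw [← hYr]
  have h32 : (1 : ℝ) ≤ 32 ^ p := one_le_pow₀ (by norm_num)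
  by_cases hc : lam + 1 < ((j : ℕ) : ℝ) + 1 ∧ ((j : ℕ) : ℝ) + 1 ≤ 4 * lam / 3
  · -- the saving
    have hg : gj lam j = (p : ℝ) - lam := by
      unfold gj
      rw [if_pos hc, hp]
      push_cast
      ring
    rw [hg]
    have hpc : ((j : ℕ) : ℝ) + 1 = p := by rw [hp]; push_cast; ring
    rw [hpc] at hc
    obtain ⟨hc1, hc2⟩ := hc
    set d : ℝ := (p : ℝ) - lam with hd
    have hd1 : 1 < d := by rw [hd]; linarith
    have hd4 : d ≤ p / 4 := by rw [hd]; linarith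
    set D : ℝ := (A : ℝ) ^ (-d) with hD
    have hDe : D = Real.exp (-(d * L)) := by
      rw [hD, Real.rpow_def_of_pos hA0]
      congr 1
      ring
    have hD0 : 0 < D := by rw [hDe]; exact Real.exp_pos _
    have hdL : 0 < d * L := by positivity
    have hD1 : D ≤ 1 := by
      rw [hDe]
      exact Real.exp_le_one_iff.2 (by linarith)
    -- the coefficient
    set b : ℝ := |bet k u n j| with hb
    have hbe : b = |u| / (p * (n : ℝ) ^ p) := by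
      rw [hb]
      unfold bet
      rw [abs_div, abs_mul, abs_pow, abs_neg, abs_one, one_pow, one_mul, hpc, ← hp,
        abs_of_pos (by positivity : (0 : ℝ) < p * (n : ℝ) ^ p)]
    have hue : |u| = Real.exp (lam * L) := by
      rw [hu, Real.rpow_def_of_pos hA0]
      congr 1
      ring
    have hAp : (A : ℝ) ^ p = Real.exp (p * L) := by
      rw [hAe, ← Real.exp_nat_mul]
    have hnp1 : (A : ℝ) ^ p ≤ (n : ℝ) ^ p := by
      have : (A : ℝ) ≤ n := by exact_mod_cast hn1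
      gcongr
    have hnp2 : (n : ℝ) ^ p ≤ 2 ^ p * (A : ℝ) ^ p := by
      have : (n : ℝ) ≤ 2 * A := by exact_mod_cast hn2
      rw [← mul_pow]
      gcongr
    have hb0 : 0 < b := by
      rw [hbe, hue]
      have := Real.exp_pos (lam * L)
      positivity
    have hDA : D * (A : ℝ) ^ p = |u| := by
      rw [hDe, hAp, hue, ← Real.exp_add]
      congr 1
      rw [hd]
      ring
    have hbD : b ≤ D := by
      rw [hbe, div_le_iff₀ (by positivity), ← hDA]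
      calc D * (A : ℝ) ^ p ≤ D * (n : ℝ) ^ p := by gcongr
        _ = D * (1 * (n : ℝ) ^ p) := by ring
        _ ≤ _ := by gcongr
    have hDb : D ≤ b * (p * 2 ^ p) := by
      rw [hbe, div_mul_eq_mul_div, le_div_iff₀ (by positivity), ← hDA]
      calc D * (p * (n : ℝ) ^ p) ≤ D * (p * (2 ^ p * (A : ℝ) ^ p)) := by gcongr
        _ = _ := by ring
    have hb1 : b ≤ 1 := hbD.trans hD1
    have hvs := vs_le (bet k u n j) Y hY1 hb0 hb1
    rw [← hb] at hvs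
    set ℓ : ℝ := 1 + Real.log (1 / b) with hℓ
    have hℓ1 : 1 ≤ ℓ := by
      have : 0 ≤ Real.log (1 / b) := Real.log_nonneg (by rw [le_div_iff₀ hb0]; linarith)
      rw [hℓ]; linarith
    -- the bound for `ℓ`
    have hℓ2 : ℓ ≤ p * L := by
      have h1 : 1 / b ≤ p * 2 ^ p / D := by
        rw [div_le_div_iff₀ hb0 hD0]
        linarith
      have h2 : Real.log (1 / b) ≤ Real.log p + p * Real.log 2 + d * L := by
        refine (Real.log_le_log (by positivity) h1).trans (le_of_eq ?_)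
        rw [Real.log_div (by positivity) hD0.ne', Real.log_mul (by positivity) (by positivity),
          Real.log_pow, hDe, Real.log_exp]
        ring
      have h3 : Real.log p ≤ p - 1 := Real.log_le_sub_one_of_pos (by linarith)
      have h4 : Real.log 2 < 1 := by
        have := Real.log_two_lt_d9
        linarith
      have h5 : (p : ℝ) * Real.log 2 ≤ p * 1 := by gcongr
      have h6 : d * L ≤ p / 4 * L := by gcongr
      have h7 : (p : ℝ) * 4 ≤ p * L := by gcongr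
      rw [hℓ]
      linarith
    -- `1 ≤ D Y 2^p`
    have hDY : 1 ≤ D * Y * 2 ^ p := by
      have h1 : (Real.exp (L / 4) / 2) ^ p ≤ (a : ℝ) ^ p := by gcongr
      have h2 : (Real.exp (L / 4) / 2) ^ p * 2 ^ p = Real.exp (p * (L / 4)) := by
        rw [← mul_pow, div_mul_cancel₀ _ (by norm_num : (2 : ℝ) ≠ 0), ← Real.exp_nat_mul]
      have h3 : (a : ℝ) ^ p ≤ Y := by
        rw [hYr]
        exact le_mul_of_one_le_left (by positivity) hs0
      have h4 : Real.exp (p * (L / 4)) ≤ Y * 2 ^ p := by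
        rw [← h2]
        gcongr
        exact h1.trans h3
      calc (1 : ℝ) ≤ D * Real.exp (p * (L / 4)) := by
            rw [hDe, ← Real.exp_add]
            apply Real.one_le_exp
            have : d * L ≤ p / 4 * L := by gcongr
            linarith
        _ ≤ D * (Y * 2 ^ p) := by gcongr
        _ = _ := by ring
    have h8 : (8 : ℝ) ^ p = 2 ^ p * (2 ^ p) ^ 2 := by
      rw [← pow_mul, ← pow_add, show (8 : ℝ) = 2 ^ 3 by norm_num, ← pow_mul]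
      congr 1
      ring
    have h2p : (1 : ℝ) ≤ 2 ^ p := one_le_pow₀ (by norm_num)
    have hY2 : 0 < (Y : ℝ) ^ 2 := by positivity
    have t1 : (Y : ℝ) ^ 2 * b ≤ (Y : ℝ) ^ 2 * D := by gcongr
    have t2 : (Y : ℝ) ≤ (Y : ℝ) ^ 2 * D * 2 ^ p := by
      have := mul_le_mul_of_nonneg_left hDY (by linarith : (0 : ℝ) ≤ Y)
      calc (Y : ℝ) = Y * 1 := by ring
        _ ≤ _ := this
        _ = _ := by ring
    have t3 : 1 / b ≤ (Y : ℝ) ^ 2 * D * (p * 8 ^ p) := by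
      have h1 : 1 / b ≤ p * 2 ^ p / D := by
        rw [div_le_div_iff₀ hb0 hD0]
        linarith
      refine h1.trans ?_
      rw [div_le_iff₀ hD0]
      have h2 : (1 : ℝ) ≤ (D * Y * 2 ^ p) ^ 2 := one_le_pow₀ hDY
      calc (p : ℝ) * 2 ^ p = p * 2 ^ p * 1 := by ring
        _ ≤ p * 2 ^ p * (D * Y * 2 ^ p) ^ 2 := by gcongr
        _ = (Y : ℝ) ^ 2 * D * (p * (2 ^ p * (2 ^ p) ^ 2)) * D := by ring
        _ = _ := by rw [h8]
    have t4 : (1 : ℝ) ≤ p * 8 ^ p :=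
      one_le_mul_of_one_le_of_one_le hp1 (one_le_pow₀ (by norm_num))
    have t5 : (2 : ℝ) ^ p ≤ p * 8 ^ p := by
      have h1 : (2 : ℝ) ^ p ≤ 8 ^ p := by gcongr; norm_num
      exact h1.trans (le_mul_of_one_le_left (by positivity) hp1)
    have hYD : 0 < (Y : ℝ) ^ 2 * D := by positivity
    have t6 : (Y : ℝ) ^ 2 * b + 2 * Y + 1 / b ≤ 4 * (p * 8 ^ p) * ((Y : ℝ) ^ 2 * D) := by
      have e1 : (Y : ℝ) ^ 2 * D ≤ (Y : ℝ) ^ 2 * D * (p * 8 ^ p) :=
        le_mul_of_one_le_right hYD.le t4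
      have e2 : (Y : ℝ) ^ 2 * D * 2 ^ p ≤ (Y : ℝ) ^ 2 * D * (p * 8 ^ p) := by gcongr
      linarith
    have t7 : (Y * b + 1) * (Y + ℓ / b) ≤ ℓ * ((Y : ℝ) ^ 2 * b + 2 * Y + 1 / b) := by
      have e1 : (Y * b + 1) * (Y + ℓ / b) = (Y : ℝ) ^ 2 * b + Y * ℓ + Y + ℓ * (1 / b) := by
        field_simp
        ring
      rw [e1]
      have e2 : (Y : ℝ) ^ 2 * b ≤ ℓ * ((Y : ℝ) ^ 2 * b) :=
        le_mul_of_one_le_left (by positivity) hℓ1
      have e3 : (Y : ℝ) ≤ ℓ * Y := le_mul_of_one_le_left (by positivity) hℓ1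
      linarith
    have t8 : (p : ℝ) ≤ 2 ^ p := by
      have := Nat.lt_two_pow_self (n := p)
      exact_mod_cast this.le
    have t9 : (p : ℝ) * (p * 8 ^ p) ≤ 32 ^ p := by
      have : (32 : ℝ) ^ p = 2 ^ p * (2 ^ p * 8 ^ p) := by
        rw [← mul_pow, ← mul_pow]
        norm_num
      rw [this]
      gcongr
    have hLp : 0 < L := by linarith
    calc VS (bet k u n j) Y ≤ 28 * (Y * b + 1) * (Y + ℓ / b) := hvs
      _ = 28 * ((Y * b + 1) * (Y + ℓ / b)) := by ring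
      _ ≤ 28 * (ℓ * ((Y : ℝ) ^ 2 * b + 2 * Y + 1 / b)) := by gcongr
      _ ≤ 28 * ((p * L) * (4 * (p * 8 ^ p) * ((Y : ℝ) ^ 2 * D))) := by gcongr
      _ = 112 * ((p : ℝ) * (p * 8 ^ p)) * L * (Y : ℝ) ^ 2 * D := by ring
      _ ≤ 112 * 32 ^ p * L * (Y : ℝ) ^ 2 * D := by gcongr
  · have hg : gj lam j = 0 := by
      unfold gj
      rw [if_neg hc]
    rw [hg, neg_zero, Real.rpow_zero, mul_one]
    refine (vs_trivial _ _).trans ?_
    calc (2 * (Y : ℝ) + 1) ^ 2 ≤ (3 * Y) ^ 2 := by gcongr; linarith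
      _ = 9 * 1 * 1 * (Y : ℝ) ^ 2 := by ring
      _ ≤ 112 * 32 ^ p * L * (Y : ℝ) ^ 2 := by
          gcongr
          · norm_num
          · linarith

end Pool.Agent.H48.VB
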