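import Mathlib
import Pool.Agent.H48.VB.Defs
import Pool.Agent.H48.VB.Vj
import Pool.Agent.H48.VB.Gsum

/-!
# Prod (B5, product over the degrees)

`Finset.prod_le_prod` with `vj` (`VS ≥ 0`), `Finset.prod_mul_distrib`, `Finset.prod_pow_eq_pow_sum`,
`∏_j (A^(-gj)) = A^(-∑ gj) ≤ A^(-lam²/19)` (`gsum`; `A ≥ 1`), `∏ 32^(j+1) ≤ 32^(k^2)`,
`∏ (s a^(j+1))^2 = s^(2k) a^(k(k+1))` (`Fin.prod_univ_eq_prod_range`, `Finset.sum_range_id_mul_two`).
About 70 lines.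
-/

set_option autoImplicit false

open Complex

namespace Pool.Agent.H48.VB

private lemma sum_succ_two (k : ℕ) : ∑ j ∈ Finset.range k, 2 * (j + 1) = k * (k + 1) := by
  induction k with
  | zero => simp
  | succ n ih => rw [Finset.sum_range_succ, ih]; ring

private lemma sum_succ_le (k : ℕ) : ∑ j ∈ Finset.range k, (j + 1) ≤ k ^ 2 := by
  have h := Finset.sum_le_card_nsmul (Finset.range k) (fun j => j + 1) k
    (fun j hj => by have := Finset.mem_range.1 hj; show j + 1 ≤ k; omega)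
  simpa [sq] using h

private lemma VS_nonneg (b : ℝ) (Y : ℕ) : 0 ≤ VS b Y :=
  Finset.sum_nonneg fun _ _ => norm_nonneg _

theorem prod_vs (u lam : ℝ) (A n a s k : ℕ) (hL : 4 ≤ Real.log A) (hlam : 200 ≤ lam)
    (hk : 4 * lam / 3 ≤ k) (hu : |u| = (A : ℝ) ^ lam) (hn1 : A ≤ n) (hn2 : n ≤ 2 * A)
    (ha1 : (a : ℝ) ≤ (A : ℝ) ^ (1 / 4 : ℝ)) (ha2 : (A : ℝ) ^ (1 / 4 : ℝ) / 2 ≤ a) (hs : 1 ≤ s) :
    ∏ j : Fin k, VS (bet k u n j) (s * a ^ ((j : ℕ) + 1)) ≤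
      (112 * Real.log A) ^ k * 32 ^ (k ^ 2) * (s : ℝ) ^ (2 * k) * (a : ℝ) ^ (k * (k + 1)) *
        (A : ℝ) ^ (-(lam ^ 2 / 19)) := by
  have hA1 : (1 : ℝ) ≤ A := by
    rcases Nat.eq_zero_or_pos A with h | h
    · subst h
      simp at hL
      linarith
    · exact_mod_cast h
  have hA0 : (0 : ℝ) < A := by linarith
  have hlog : 0 ≤ Real.log A := by linarith
  set f : ℕ → ℝ := fun j => 112 * 32 ^ (j + 1) * Real.log A *
    ((s : ℝ) * (a : ℝ) ^ (j + 1)) ^ 2 * (A : ℝ) ^ (-gj lam j) with hf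
  have h1 : ∏ j : Fin k, VS (bet k u n j) (s * a ^ ((j : ℕ) + 1)) ≤ ∏ j : Fin k, f j := by
    apply Finset.prod_le_prod
    · intro j _
      exact VS_nonneg _ _
    · intro j _
      exact vj u lam A n a s k j hL (by linarith) hu hn1 hn2 ha1 ha2 hs
  have h2 : ∏ j : Fin k, f j = ∏ j ∈ Finset.range k, f j := Fin.prod_univ_eq_prod_range f k
  have h3 : ∏ j ∈ Finset.range k, f j = (112 * Real.log A) ^ k *
      32 ^ (∑ j ∈ Finset.range k, (j + 1)) * (s : ℝ) ^ (2 * k) * (a : ℝ) ^ (k * (k + 1)) *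
        (A : ℝ) ^ (∑ j ∈ Finset.range k, -gj lam j) := by
    rw [Real.rpow_sum_of_pos hA0, ← sum_succ_two k, ← Finset.prod_pow_eq_pow_sum,
      ← Finset.prod_pow_eq_pow_sum]
    have e1 : (112 * Real.log A) ^ k = ∏ j ∈ Finset.range k, (112 * Real.log A) := by simp
    have e2 : (s : ℝ) ^ (2 * k) = ∏ j ∈ Finset.range k, (s : ℝ) ^ 2 := by
      simp [pow_mul]
    rw [e1, e2, ← Finset.prod_mul_distrib, ← Finset.prod_mul_distrib, ← Finset.prod_mul_distrib,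
      ← Finset.prod_mul_distrib]
    apply Finset.prod_congr rfl
    intro j _
    simp only [hf]
    ring
  rw [h2, h3] at h1
  refine h1.trans ?_
  have h4 : (32 : ℝ) ^ (∑ j ∈ Finset.range k, (j + 1)) ≤ 32 ^ (k ^ 2) :=
    pow_le_pow_right₀ (by norm_num) (sum_succ_le k)
  have h5 : (A : ℝ) ^ (∑ j ∈ Finset.range k, -gj lam j) ≤ (A : ℝ) ^ (-(lam ^ 2 / 19)) := by
    apply Real.rpow_le_rpow_of_exponent_le hA1
    rw [Finset.sum_neg_distrib]
    linarith [gsum lam k hlam hk]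
  have hs0 : (0 : ℝ) ≤ s := by positivity
  have ha0 : (0 : ℝ) ≤ a := by positivity
  gcongr

end Pool.Agent.H48.VB
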