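import Mathlib
import Pool.Agent.H48.VB.Defs
import Pool.Agent.H48.VB.Hold
import Pool.Agent.H48.VB.Prod
import Pool.Agent.H48.VB.Num

/-!
# Wbd: the bound for the double sum

`s = 4 k²`.  If `W = 0` clear.  Otherwise take logarithms of `hold` with `J ≤` (hypothesis `MVB A₀`,
`k ≥ 2`, `a ≥ 1`) and `∏ VS ≤` (`prod_vs`): with `lw = log ‖W‖`, `la = log a`, `L = log A`
`4s² lw + 4s la ≤ 8s² la + 2(A₀ k⁴ + (8k² - k(k+1)/2 (1-δ)) la) + k log(112 L) + k² log 32 + 2k log s +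
k(k+1) la - L lam²/19`, `δ = (1-1/k)^(4k)`; `4s = 16k²`, `4s² = 64k⁴`, `8s² = 128k⁴`: this is the
hypothesis of `num` (`0 ≤ la ≤ L/4`, `k = ⌈2 lam⌉₊`).  `L ≥ lam² ≥ 40000`.  About 90 lines.
-/

set_option autoImplicit false

open Complex

namespace Pool.Agent.H48.VB

open Pool.Agent.H76.VK

private theorem wbd_log (w a J P E2 g : ℝ) (e1 e2 e3 : ℕ) (hw : 0 < w) (ha : 0 < a)
    (hJ : 0 < J) (hP : 0 < P)
    (h : w ^ e1 * a ^ e2 ≤ a ^ e3 * J ^ 2 * P) (hE : Real.log J ≤ E2) (hG : Real.log P ≤ g) :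
    e1 * Real.log w + e2 * Real.log a ≤ e3 * Real.log a + 2 * E2 + g := by
  have h1 := Real.log_le_log (by positivity) h
  rw [Real.log_mul (by positivity) (by positivity), Real.log_mul (by positivity) (by positivity),
    Real.log_mul (by positivity) (by positivity), Real.log_pow, Real.log_pow, Real.log_pow,
    Real.log_pow] at h1
  push_cast at h1
  linarith

theorem wbd {A₀ : ℝ} (hA₀ : 0 ≤ A₀) (hm : MVB A₀) (u lam : ℝ) (A n a k : ℕ) (hlam : 200 ≤ lam)
    (hL : lam ^ 2 ≤ Real.log A) (hk : k = ⌈2 * lam⌉₊) (hu : |u| = (A : ℝ) ^ lam) (hn1 : A ≤ n)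
    (hn2 : n ≤ 2 * A) (ha : 1 ≤ a) (ha1 : (a : ℝ) ≤ (A : ℝ) ^ (1 / 4 : ℝ))
    (ha2 : (A : ℝ) ^ (1 / 4 : ℝ) / 2 ≤ a) :
    ‖W a (bet k u n)‖ ≤
      Real.exp (A₀ + 1) * (a : ℝ) ^ 2 * Real.exp (-(Real.log A / (32000 * lam ^ 2))) := by
  have hL0 : (40000 : ℝ) ≤ Real.log A := by nlinarith
  have hApos : (0 : ℝ) < A := by
    rcases Nat.eq_zero_or_pos A with h | h
    · subst h
      simp at hL0
      linarith
    · exact_mod_cast h
  have hk3 : 2 * lam ≤ (k : ℝ) := by rw [hk]; exact Nat.le_ceil _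
  have hk4 : (k : ℝ) ≤ 2 * lam + 1 := by
    rw [hk]; exact (Nat.ceil_lt_add_one (by linarith)).le
  have hk2 : 2 ≤ k := by
    have : (2 : ℝ) ≤ (k : ℝ) := by linarith
    exact_mod_cast this
  have hk0 : (0 : ℝ) < (k : ℝ) := by linarith
  have hapos : (0 : ℝ) < (a : ℝ) := by exact_mod_cast ha
  have hla0 : 0 ≤ Real.log a := Real.log_nonneg (by exact_mod_cast ha)
  have hla4 : Real.log a ≤ Real.log A / 4 := by
    have h := Real.log_le_log hapos ha1
    rw [Real.log_rpow hApos] at h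
    linarith
  by_cases hW : ‖W a (bet k u n)‖ = 0
  · rw [hW]; positivity
  have hWp : 0 < ‖W a (bet k u n)‖ := lt_of_le_of_ne (norm_nonneg _) (Ne.symm hW)
  have hs : 1 ≤ 4 * k ^ 2 := by nlinarith
  have hold' := hold k (4 * k ^ 2) a hs ha (bet k u n)
  have hprod := prod_vs u lam A n a (4 * k ^ 2) k (by linarith) hlam (by linarith) hu hn1 hn2 ha1
    ha2 hs
  have hJ := hm k a hk2 ha
  set Jr : ℝ := (J k (4 * k ^ 2) a : ℝ) with hJr
  set P : ℝ := ∏ j : Fin k, VS (bet k u n j) (4 * k ^ 2 * a ^ ((j : ℕ) + 1)) with hPdef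
  have hJ0 : 0 ≤ Jr := Nat.cast_nonneg _
  have hP0 : 0 ≤ P := by
    refine Finset.prod_nonneg fun j _ => ?_
    unfold VS
    exact Finset.sum_nonneg fun _ _ => norm_nonneg _
  have hlhs : 0 < ‖W a (bet k u n)‖ ^ (4 * (4 * k ^ 2) ^ 2) * (a : ℝ) ^ (4 * (4 * k ^ 2)) := by
    positivity
  have hJp : 0 < Jr := by
    rcases hJ0.lt_or_eq with h | h
    · exact h
    · rw [← h] at hold'
      simp only [ne_eq, OfNat.ofNat_ne_zero, not_false_eq_true, zero_pow, mul_zero, zero_mul]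
        at hold'
      linarith
  have hPp : 0 < P := by
    rcases hP0.lt_or_eq with h | h
    · exact h
    · rw [← h, mul_zero] at hold'
      linarith
  -- the logarithm of `J`
  have hlJ : Real.log Jr ≤ A₀ * (k : ℝ) ^ 4 +
      (8 * (k : ℝ) ^ 2 - (k : ℝ) * (k + 1) / 2 * (1 - (1 - 1 / (k : ℝ)) ^ (4 * k))) *
        Real.log a := by
    have h := Real.log_le_log hJp hJ
    rwa [Real.log_mul (Real.exp_pos _).ne' (Real.rpow_pos_of_pos hapos _).ne', Real.log_exp,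
      Real.log_rpow hapos] at h
  -- the logarithm of the product
  have hlP : Real.log P ≤ k * Real.log (112 * Real.log A) + (k : ℝ) ^ 2 * Real.log 32 +
      2 * k * Real.log (4 * (k : ℝ) ^ 2) + (k : ℝ) * (k + 1) * Real.log a -
      Real.log A * lam ^ 2 / 19 := by
    have h := Real.log_le_log hPp hprod
    have h112 : (0 : ℝ) < 112 * Real.log A := by linarith
    have hA' : (0 : ℝ) < (A : ℝ) ^ (-(lam ^ 2 / 19)) := Real.rpow_pos_of_pos hApos _
    have hsk : (0 : ℝ) < ((4 * k ^ 2 : ℕ) : ℝ) := by exact_mod_cast hs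
    rw [Real.log_mul (by positivity) hA'.ne', Real.log_mul (by positivity) (by positivity),
      Real.log_mul (by positivity) (by positivity), Real.log_mul (by positivity) (by positivity),
      Real.log_pow, Real.log_pow, Real.log_pow, Real.log_pow, Real.log_rpow hApos] at h
    push_cast at h
    linarith
  have key := wbd_log ‖W a (bet k u n)‖ a Jr P _ _ (4 * (4 * k ^ 2) ^ 2)
    (4 * (4 * k ^ 2)) (8 * (4 * k ^ 2) ^ 2) hWp hapos hJp hPp hold' hlJ hlP
  push_cast at key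
  have hfin := num A₀ hA₀ k lam (Real.log A) (Real.log a) (Real.log ‖W a (bet k u n)‖) hlam hL hk3
    hk4 hla0 hla4 (by nlinarith [key])
  have h1 : ‖W a (bet k u n)‖ = Real.exp (Real.log ‖W a (bet k u n)‖) := (Real.exp_log hWp).symm
  have h2 : (a : ℝ) ^ 2 = Real.exp (2 * Real.log a) := by
    rw [two_mul, Real.exp_add, Real.exp_log hapos]; ring
  rw [h1, h2, ← Real.exp_add, ← Real.exp_add]
  apply Real.exp_le_exp.mpr
  linarith

end Pool.Agent.H48.VB
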