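import Mathlib
import Pool.Agent.H48.VB.Defs
import Pool.Agent.H48.VB.Shift
import Pool.Agent.H48.VB.Taylor
import Pool.Agent.H48.VB.Wbd

/-!
# Big: the zeta sum for large `lam`

`a = ⌊A^(1/4)⌋₊` (`A ≥ e^40000`: `a ≥ 1`, `A^(1/4)/2 ≤ a ≤ A^(1/4)`, `2 a² ≤ 2 A^(1/2) ≤ A ≤ n`),
`k = ⌈2 lam⌉₊`.  `shift`, then `taylor` and `wbd` for each `n ∈ [A, B]` (at most `A + 1 ≤ 2A` of
them): `a² S ≤ 2A (e^(A₀+1) a² e^(-L/(32000 lam²)) + 2|u| a² (a²/A)^(k+1)) + 2a⁴`; divide by `a²`: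
`|u| (a²/A)^(k+1) ≤ A^lam A^(-(k+1)/2) ≤ A^(-1/2)` (`k ≥ 2 lam`), `a² ≤ A^(1/2)`; so
`S ≤ 2 e^(A₀+1) A e^(-L/(32000 lam²)) + 6 A^(1/2)`, and
`A^(1/2) = A e^(-L/2) ≤ A e^(-L/(32000 lam²))`.  About 100 lines.
-/

set_option autoImplicit false

open Complex

namespace Pool.Agent.H48.VB

theorem big {A₀ : ℝ} (hA₀ : 0 ≤ A₀) (hm : MVB A₀) (u lam : ℝ) (A B : ℕ) (hAB : A ≤ B)
    (hB : B ≤ 2 * A) (hlam : 200 ≤ lam) (hL : lam ^ 2 ≤ Real.log A) (hu : |u| = (A : ℝ) ^ lam) :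
    ‖∑ n ∈ Finset.Icc A B, (n : ℂ) ^ (-(u * I))‖ ≤
      (2 * Real.exp (A₀ + 1) + 6) * (A * Real.exp (-(Real.log A / (32000 * lam ^ 2)))) := by
  set L : ℝ := Real.log A with hLd
  have hlam2 : (40000 : ℝ) ≤ lam ^ 2 := by nlinarith
  have hL4 : (40000 : ℝ) ≤ L := by linarith
  have hA1 : 1 ≤ A := by
    rcases Nat.eq_zero_or_pos A with h | h
    · rw [hLd, h] at hL4
      norm_num at hL4
    · exact h
  have hA0 : (0 : ℝ) < A := by exact_mod_cast hA1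
  have hAe : (A : ℝ) = Real.exp L := (Real.exp_log hA0).symm
  set r : ℝ := (A : ℝ) ^ (1 / 4 : ℝ) with hr
  have hre : r = Real.exp (L / 4) := by
    rw [hr, Real.rpow_def_of_pos hA0]
    congr 1
    ring
  have hr2 : 2 ≤ r := by
    rw [hre]
    have := Real.add_one_le_exp (L / 4)
    linarith
  have hr22 : r ^ 2 = Real.exp (L / 2) := by
    rw [hre, ← Real.exp_nat_mul]
    congr 1
    push_cast
    ring
  have hr4 : r ^ 4 = A := by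
    rw [hAe, hre, ← Real.exp_nat_mul]
    congr 1
    push_cast
    ring
  set a : ℕ := ⌊r⌋₊ with ha
  have ha1 : (a : ℝ) ≤ r := Nat.floor_le (by linarith)
  have ha2 : r < a + 1 := Nat.lt_floor_add_one r
  have ha3 : r / 2 ≤ a := by linarith
  have ha0 : (0 : ℝ) < a := by linarith
  have ha4 : 1 ≤ a := by exact_mod_cast ha0
  have har : (a : ℝ) ^ 2 ≤ r ^ 2 := by gcongr
  have h2a : 2 * a ^ 2 ≤ A := by
    have : (2 : ℝ) * (a : ℝ) ^ 2 ≤ A := by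
      rw [← hr4]
      have h3 : (2 : ℝ) ≤ r ^ 2 := by nlinarith
      calc (2 : ℝ) * (a : ℝ) ^ 2 ≤ r ^ 2 * r ^ 2 := by gcongr
        _ = r ^ 4 := by ring
    exact_mod_cast this
  set k : ℕ := ⌈2 * lam⌉₊ with hk
  have hk2 : 2 * lam ≤ k := Nat.le_ceil _
  set E : ℝ := Real.exp (-(L / (32000 * lam ^ 2))) with hE
  set H : ℝ := Real.exp (-(L / 2)) with hH
  have hHE : H ≤ E := by
    rw [hH, hE]
    apply Real.exp_le_exp.2
    have : L / (32000 * lam ^ 2) ≤ L / 2 := by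
      apply div_le_div_of_nonneg_left (by linarith) (by norm_num)
      linarith
    linarith
  have hHpos : 0 < H := Real.exp_pos _
  have hErr : |u| * ((a : ℝ) ^ 2 / A) ^ (k + 1) ≤ H := by
    have h3 : (a : ℝ) ^ 2 / A ≤ Real.exp (-(L / 2)) := by
      rw [div_le_iff₀ hA0, hAe, ← Real.exp_add]
      have : -(L / 2) + L = L / 2 := by ring
      rw [this, ← hr22]
      exact har
    have h4 : ((a : ℝ) ^ 2 / A) ^ (k + 1) ≤ Real.exp (-(L / 2)) ^ (k + 1) := by gcongr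
    calc |u| * ((a : ℝ) ^ 2 / A) ^ (k + 1) ≤ |u| * Real.exp (-(L / 2)) ^ (k + 1) := by gcongr
      _ = Real.exp (L * lam) * Real.exp (((k + 1 : ℕ) : ℝ) * (-(L / 2))) := by
          rw [hu, Real.rpow_def_of_pos hA0, ← Real.exp_nat_mul]
      _ = Real.exp (L * lam + ((k + 1 : ℕ) : ℝ) * (-(L / 2))) := (Real.exp_add _ _).symm
      _ ≤ H := by
          rw [hH]
          apply Real.exp_le_exp.2
          push_cast
          nlinarith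
  have hterm : ∀ n ∈ Finset.Icc A B, ‖∑ x ∈ Finset.Icc 1 (a : ℤ), ∑ y ∈ Finset.Icc 1 (a : ℤ),
        cexp ((-u * Real.log (1 + (x : ℝ) * y / n) : ℝ) * I)‖ ≤
      (a : ℝ) ^ 2 * (Real.exp (A₀ + 1) * E + 2 * H) := by
    intro n hn
    rw [Finset.mem_Icc] at hn
    have hn1 : 1 ≤ n := hA1.trans hn.1
    have h3 := taylor u k n a hn1 (h2a.trans hn.1)
    have h4 := wbd hA₀ hm u lam A n a k hlam hL rfl hu hn.1 (hn.2.trans hB) ha4 ha1 ha3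
    have h5 : ((a : ℝ) ^ 2 / n) ^ (k + 1) ≤ ((a : ℝ) ^ 2 / A) ^ (k + 1) := by
      have : (A : ℝ) ≤ n := by exact_mod_cast hn.1
      gcongr
    have h6 : 2 * |u| * (a : ℝ) ^ 2 * ((a : ℝ) ^ 2 / n) ^ (k + 1) ≤ (a : ℝ) ^ 2 * (2 * H) := by
      calc 2 * |u| * (a : ℝ) ^ 2 * ((a : ℝ) ^ 2 / n) ^ (k + 1)
          ≤ 2 * |u| * (a : ℝ) ^ 2 * ((a : ℝ) ^ 2 / A) ^ (k + 1) := by gcongr
        _ = (a : ℝ) ^ 2 * (2 * (|u| * ((a : ℝ) ^ 2 / A) ^ (k + 1))) := by ring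
        _ ≤ _ := by gcongr
    calc _ ≤ Real.exp (A₀ + 1) * (a : ℝ) ^ 2 * E + (a : ℝ) ^ 2 * (2 * H) := by linarith
      _ = _ := by ring
  have h7 := shift u A B a hA1 hAB ha4
  have h8 : ∑ n ∈ Finset.Icc A B, ‖∑ x ∈ Finset.Icc 1 (a : ℤ), ∑ y ∈ Finset.Icc 1 (a : ℤ),
        cexp ((-u * Real.log (1 + (x : ℝ) * y / n) : ℝ) * I)‖ ≤
      2 * A * ((a : ℝ) ^ 2 * (Real.exp (A₀ + 1) * E + 2 * H)) := by
    refine (Finset.sum_le_card_nsmul _ _ _ hterm).trans ?_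
    rw [nsmul_eq_mul, Nat.card_Icc]
    have h9 : ((B + 1 - A : ℕ) : ℝ) ≤ 2 * A := by
      have : B + 1 - A ≤ 2 * A := by omega
      exact_mod_cast this
    have h10 : 0 ≤ (a : ℝ) ^ 2 * (Real.exp (A₀ + 1) * E + 2 * H) := by positivity
    exact mul_le_mul_of_nonneg_right h9 h10
  set S : ℝ := ‖∑ n ∈ Finset.Icc A B, (n : ℂ) ^ (-(u * I))‖ with hS
  have ha22 : (0 : ℝ) < (a : ℝ) ^ 2 := by positivity
  have h11 : (a : ℝ) ^ 2 * S ≤ (a : ℝ) ^ 2 *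
      (2 * A * (Real.exp (A₀ + 1) * E + 2 * H) + 2 * (a : ℝ) ^ 2) := by
    calc _ ≤ 2 * A * ((a : ℝ) ^ 2 * (Real.exp (A₀ + 1) * E + 2 * H)) + 2 * (a : ℝ) ^ 4 := by
          linarith
      _ = _ := by ring
  have h12 := le_of_mul_le_mul_left h11 ha22
  have h13 : (a : ℝ) ^ 2 ≤ A * H := by
    refine har.trans (le_of_eq ?_)
    rw [hr22, hAe, hH, ← Real.exp_add]
    congr 1
    ring
  calc S ≤ 2 * A * (Real.exp (A₀ + 1) * E + 2 * H) + 2 * (a : ℝ) ^ 2 := h12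
    _ ≤ 2 * A * (Real.exp (A₀ + 1) * E + 2 * H) + 2 * (A * H) := by linarith
    _ = 2 * Real.exp (A₀ + 1) * (A * E) + 6 * (A * H) := by ring
    _ ≤ 2 * Real.exp (A₀ + 1) * (A * E) + 6 * (A * E) := by
        have : (A : ℝ) * H ≤ A * E := by gcongr
        linarith
    _ = _ := by ring

end Pool.Agent.H48.VB
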