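import Mathlib
import Pool.Agent.H52.Unc.ZsumK
import Pool.Agent.H48.VB.Big

/-!
# Main: zeta sums from Vinogradov's mean value theorem

Put `τ = min 1 (log A/log|u|)`, `c = min (1/32000) δ` with `δ, C₁` from `zsumK 200`.
`A = 1`: `τ = 0`, the sum has at most 2 terms.
(i) `|u| ≤ A^200`: `zsumK`: `≤ C₁ (A^(1-δ) + A/|u|)`, `A^(1-δ) ≤ A^(1-cτ²)`.
(ii) `lam = log|u|/log A > 200`, `lam² ≤ log A`: `big`; `τ = 1/lam`,
`A e^(-L/(32000 lam²)) = A^(1 - τ²/32000) ≤ A^(1-cτ²)`.
(iii) `lam > 200`, `lam² > log A`: trivial bound `≤ A + 1 ≤ 2A`, and `A^(-cτ²) = e^(-cL/lam²) ≥ e^(-c) ≥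
e^(-1)`: `2A ≤ 2e A^(1-cτ²)`.
`C = C₁ + 2e^(A₀+1) + 6 + 2e + 2`.  About 110 lines.
-/

set_option autoImplicit false

open Complex

namespace Pool.Agent.H48.VB

theorem vksum {A₀ : ℝ} (hA₀ : 0 ≤ A₀) (hm : MVB A₀) : ∃ c C : ℝ, 0 < c ∧ c ≤ 1 / 2 ∧ 0 < C ∧
    ∀ (u : ℝ) (A B : ℕ), 1 ≤ A → A ≤ B → B ≤ 2 * A → 2 ≤ |u| →
      ‖∑ n ∈ Finset.Icc A B, (n : ℂ) ^ (-(u * I))‖ ≤
        C * ((A : ℝ) ^ (1 - c * (min 1 (Real.log A / Real.log |u|)) ^ 2) + A / |u|) := by
  obtain ⟨δ, C₁, hδ0, hδ2, hC₁, hz⟩ := Pool.Agent.H52.Unc.zsumK 200 (by norm_num)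
  set c : ℝ := min (1 / 32000) δ with hc
  have hc0 : 0 < c := lt_min (by norm_num) hδ0
  have hcδ : c ≤ δ := min_le_right _ _
  have hc1 : c ≤ 1 / 32000 := min_le_left _ _
  set K : ℝ := 2 * Real.exp (A₀ + 1) + 6 with hK
  have hK0 : 0 < K := by positivity
  have he0 : 0 < Real.exp 1 := Real.exp_pos 1
  refine ⟨c, C₁ + K + 2 * Real.exp 1 + 2, hc0, hcδ.trans hδ2, by positivity, ?_⟩
  intro u A B hA hAB hB hu
  have hA1 : (1 : ℝ) ≤ A := by exact_mod_cast hA
  have hA0 : (0 : ℝ) < A := by linarith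
  have hu0 : 0 < |u| := by linarith
  have hlu : 0 < Real.log |u| := Real.log_pos (by linarith)
  have hL0 : 0 ≤ Real.log A := Real.log_nonneg hA1
  set τ : ℝ := min 1 (Real.log A / Real.log |u|) with hτ
  have hτ0 : 0 ≤ τ := le_min zero_le_one (div_nonneg hL0 hlu.le)
  have hτ1 : τ ≤ 1 := min_le_left _ _
  have hτ2 : τ ^ 2 ≤ 1 := pow_le_one₀ hτ0 hτ1
  have hdiv : 0 ≤ (A : ℝ) / |u| := by positivity
  have hpow : 0 < (A : ℝ) ^ (1 - c * τ ^ 2) := Real.rpow_pos_of_pos hA0 _
  -- the trivial bound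
  have htriv : ‖∑ n ∈ Finset.Icc A B, (n : ℂ) ^ (-(u * I))‖ ≤ 2 * A := by
    have h1 : ∀ n ∈ Finset.Icc A B, ‖(n : ℂ) ^ (-(u * I))‖ ≤ 1 := by
      intro n hn
      rw [Finset.mem_Icc] at hn
      rw [Complex.norm_natCast_cpow_of_pos (by omega)]
      simp
    have h2 := Finset.sum_le_sum h1
    have h3 : ∑ n ∈ Finset.Icc A B, (1 : ℝ) ≤ 2 * A := by
      rw [Finset.sum_const, Nat.card_Icc, nsmul_eq_mul, mul_one]
      have : B + 1 - A ≤ 2 * A := by omega
      exact_mod_cast this
    exact (norm_sum_le _ _).trans (h2.trans h3)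
  -- it is enough to have one of the bounds
  have hfin : ∀ {x D : ℝ}, 0 ≤ D → D ≤ C₁ + K + 2 * Real.exp 1 + 2 →
      x ≤ D * ((A : ℝ) ^ (1 - c * τ ^ 2) + A / |u|) →
      x ≤ (C₁ + K + 2 * Real.exp 1 + 2) * ((A : ℝ) ^ (1 - c * τ ^ 2) + A / |u|) := by
    intro x D _ hD hx
    exact hx.trans (mul_le_mul_of_nonneg_right hD (by positivity))
  by_cases hi : |u| ≤ (A : ℝ) ^ 200
  · refine hfin hC₁.le (by linarith [hK0, he0]) ((hz u A B hA hAB hB (by linarith) hi).trans ?_)
    apply mul_le_mul_of_nonneg_left _ hC₁.le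
    have h1 : (A : ℝ) ^ (1 - δ) ≤ (A : ℝ) ^ (1 - c * τ ^ 2) := by
      apply Real.rpow_le_rpow_of_exponent_le hA1
      nlinarith [mul_le_mul_of_nonneg_left hτ2 hc0.le]
    linarith
  · push Not at hi
    rcases hL0.eq_or_lt with hL | hL
    · -- `A = 1`
      have hτz : τ = 0 := by
        rw [hτ, ← hL, zero_div]
        exact min_eq_right zero_le_one
      have h1 : (A : ℝ) ^ (1 - c * τ ^ 2) = A := by
        rw [hτz]
        norm_num
      refine hfin (D := 2) (by norm_num) (by linarith) (htriv.trans ?_)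
      rw [h1]
      linarith
    · -- `A ≥ 2`
      obtain ⟨lam, hlam⟩ : ∃ lam : ℝ, lam = Real.log |u| / Real.log A := ⟨_, rfl⟩
      have hlamL : lam * Real.log A = Real.log |u| := by
        rw [hlam, div_mul_cancel₀ _ hL.ne']
      have h200 : 200 < lam := by
        have h2 : Real.log ((A : ℝ) ^ 200) < Real.log |u| :=
          Real.log_lt_log (by positivity) hi
        rw [Real.log_pow] at h2
        push_cast at h2
        rw [hlam, lt_div_iff₀ hL]
        exact h2
      have hlam0 : 0 < lam := by linarith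
      have hτl : τ = 1 / lam := by
        have h3 : Real.log A / Real.log |u| = 1 / lam := by
          rw [hlam, one_div_div]
        rw [hτ, h3]
        apply min_eq_right
        rw [div_le_one hlam0]
        linarith
      have hApow : ∀ x : ℝ, (A : ℝ) ^ (1 - x) = A * Real.exp (-(Real.log A * x)) := by
        intro x
        rw [Real.rpow_def_of_pos hA0, show Real.log A * (1 - x) =
          Real.log A + -(Real.log A * x) by ring, Real.exp_add, Real.exp_log hA0]
      by_cases hii : lam ^ 2 ≤ Real.log A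
      · have hu' : |u| = (A : ℝ) ^ lam := by
          rw [Real.rpow_def_of_pos hA0, mul_comm, hlamL, Real.exp_log hu0]
        refine hfin hK0.le (by linarith) ((big hA₀ hm u lam A B hAB hB h200.le hii hu').trans ?_)
        apply mul_le_mul_of_nonneg_left _ hK0.le
        have h4 : (A : ℝ) * Real.exp (-(Real.log A / (32000 * lam ^ 2))) ≤
            (A : ℝ) ^ (1 - c * τ ^ 2) := by
          rw [hApow]
          apply mul_le_mul_of_nonneg_left _ hA0.le
          apply Real.exp_le_exp.mpr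
          apply neg_le_neg
          have h5 : c * τ ^ 2 ≤ 1 / (32000 * lam ^ 2) := by
            calc c * τ ^ 2 ≤ 1 / 32000 * τ ^ 2 :=
                  mul_le_mul_of_nonneg_right hc1 (by positivity)
              _ = 1 / (32000 * lam ^ 2) := by
                  rw [hτl]
                  field_simp
          calc Real.log A * (c * τ ^ 2) ≤ Real.log A * (1 / (32000 * lam ^ 2)) :=
                mul_le_mul_of_nonneg_left h5 hL.le
            _ = Real.log A / (32000 * lam ^ 2) := by ring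
        linarith
      · push Not at hii
        refine hfin (D := 2 * Real.exp 1) (by positivity) (by linarith) (htriv.trans ?_)
        have h6 : Real.exp (-1) ≤ Real.exp (-(Real.log A * (c * τ ^ 2))) := by
          apply Real.exp_le_exp.mpr
          apply neg_le_neg
          have h7 : Real.log A * τ ^ 2 ≤ 1 := by
            rw [hτl, one_div, inv_pow, ← div_eq_mul_inv, div_le_one (by positivity)]
            exact hii.le
          have h8 : 0 ≤ Real.log A * τ ^ 2 := by positivity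
          calc Real.log A * (c * τ ^ 2) = c * (Real.log A * τ ^ 2) := by ring
            _ ≤ 1 * 1 := mul_le_mul (by linarith) h7 h8 (by norm_num)
            _ = 1 := one_mul 1
        have h9 : (A : ℝ) * Real.exp (-1) ≤ (A : ℝ) ^ (1 - c * τ ^ 2) := by
          rw [hApow]
          exact mul_le_mul_of_nonneg_left h6 hA0.le
        have h10 : Real.exp 1 * Real.exp (-1) = 1 := by
          rw [← Real.exp_add]
          norm_num
        calc 2 * (A : ℝ) = 2 * Real.exp 1 * ((A : ℝ) * Real.exp (-1)) := by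
              linear_combination (-2 * (A : ℝ)) * h10
          _ ≤ 2 * Real.exp 1 * ((A : ℝ) ^ (1 - c * τ ^ 2) + A / |u|) := by
              apply mul_le_mul_of_nonneg_left _ (by positivity)
              linarith

end Pool.Agent.H48.VB
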